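import Mathlib

/-! # Project TP, module L: algebraic dependence in the real field -/

set_option autoImplicit false

namespace Pool.Agent.Helper7.TP

/-- The real number `y` is algebraic over the extension of `k` generated by `S`. -/
def Alg (k : Type) [Field k] [Algebra k ℝ] (S : Set ℝ) (y : ℝ) : Prop :=
  IsAlgebraic (Algebra.adjoin k S) y

section

variable (k : Type) [Field k] [Algebra k ℝ] {S T : Set ℝ} {x y : ℝ}

theorem Alg.of_mem (h : y ∈ S) : Alg k S y :=
  isAlgebraic_algebraMap (⟨y, Algebra.subset_adjoin h⟩ : Algebra.adjoin k S)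

theorem Alg.algebraMap (a : k) : Alg k S (algebraMap k ℝ a) :=
  isAlgebraic_algebraMap
    (⟨Algebra.algebraMap k ℝ a, Subalgebra.algebraMap_mem _ a⟩ : Algebra.adjoin k S)

theorem Alg.add (hx : Alg k S x) (hy : Alg k S y) : Alg k S (x + y) :=
  IsAlgebraic.add hx hy

theorem Alg.mul (hx : Alg k S x) (hy : Alg k S y) : Alg k S (x * y) :=
  IsAlgebraic.mul hx hy

theorem Alg.neg (hx : Alg k S x) : Alg k S (-x) := IsAlgebraic.neg hx

theorem Alg.inv (hx : Alg k S x) : Alg k S x⁻¹ := IsAlgebraic.inv hx

theorem Alg.of_sq (h : Alg k S (x ^ 2)) : Alg k S x := IsAlgebraic.of_pow two_pos h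

theorem Alg.trans (h : ∀ z ∈ T, Alg k S z) (hy : Alg k T y) : Alg k S y :=
  IsAlgebraic.adjoin_of_forall_isAlgebraic (fun z hz => h z hz.1) hy

theorem Alg.mono (h : S ⊆ T) (hy : Alg k S y) : Alg k T y :=
  Alg.trans k (fun _ hz => Alg.of_mem k (h hz)) hy

theorem Alg.sum {ι : Type} (s : Finset ι) (f : ι → ℝ) (h : ∀ i ∈ s, Alg k S (f i)) :
    Alg k S (∑ i ∈ s, f i) := by
  classical
  induction s using Finset.induction_on with
  | empty =>
    rw [Finset.sum_empty]
    have := Alg.algebraMap k (S := S) 0
    rwa [map_zero] at this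
  | insert i s hi ih =>
    rw [Finset.sum_insert hi]
    exact Alg.add k (h i (Finset.mem_insert_self _ _))
      (ih fun j hj => h j (Finset.mem_insert_of_mem hj))

theorem Alg.prod {ι : Type} (s : Finset ι) (f : ι → ℝ) (h : ∀ i ∈ s, Alg k S (f i)) :
    Alg k S (∏ i ∈ s, f i) := by
  classical
  induction s using Finset.induction_on with
  | empty =>
    rw [Finset.prod_empty]
    have := Alg.algebraMap k (S := S) 1
    rwa [map_one] at this
  | insert i s hi ih =>
    rw [Finset.prod_insert hi]
    exact Alg.mul k (h i (Finset.mem_insert_self _ _))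
      (ih fun j hj => h j (Finset.mem_insert_of_mem hj))

/-- Extension of the base field. -/
theorem Alg.base {k' : Type} [Field k'] [Algebra k' ℝ] [Algebra k k'] [IsScalarTower k k' ℝ]
    (h : Alg k S y) : Alg k' S y := by
  have hle : Algebra.adjoin k S ≤ (Algebra.adjoin k' S).restrictScalars k :=
    Algebra.adjoin_le fun z hz => Algebra.subset_adjoin hz
  exact IsAlgebraic.tower_top_of_subalgebra_le hle h

/-- The exchange property. -/
theorem card_le_of_alg {J : Type} [Fintype J] {c : J → ℝ} (hc : AlgebraicIndependent k c)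
    (hS : S.Finite) (h : ∀ j, Alg k S (c j)) : Fintype.card J ≤ S.ncard := by
  classical
  have hinj : Function.Injective c := AlgebraicIndependent.injective hc
  have hind : (AlgebraicIndependent.matroid k ℝ).Indep (Set.range c) := by
    rw [AlgebraicIndependent.matroid_indep_iff]
    exact AlgebraicIndependent.to_subtype_range hc
  have hsub : Set.range c ⊆ (AlgebraicIndependent.matroid k ℝ).closure S := by
    rw [AlgebraicIndependent.matroid_closure_eq]
    rintro _ ⟨j, rfl⟩
    exact h j
  have h1 : (Set.range c).encard ≤ S.encard := by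
    calc (Set.range c).encard ≤ (AlgebraicIndependent.matroid k ℝ).eRk
          ((AlgebraicIndependent.matroid k ℝ).closure S) := hind.encard_le_eRk_of_subset hsub
      _ = (AlgebraicIndependent.matroid k ℝ).eRk S := Matroid.eRk_closure_eq _ _
      _ ≤ S.encard := Matroid.eRk_le_encard _ _
  have h2 : (Set.range c).encard = (Fintype.card J : ℕ∞) := by
    rw [← Set.image_univ, hinj.encard_image, Set.encard_univ]
    simp
  rw [h2, ← hS.cast_ncard_eq] at h1
  exact_mod_cast h1

end

end Pool.Agent.Helper7.TP
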