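import Pool.Agent.Helper7.TP.Top
import Pool.Agent.Helper7.TP.Alg

/-! # Project TP, module N: the coordinates of points of the sphere depend on two parameters -/

set_option autoImplicit false

namespace Pool.Agent.Helper7.TP

open Metric Set Topology

private theorem sq_coord (p : S2) :
    ((p : E3) 2) ^ 2 = 1 + -((p : E3) 0 * (p : E3) 0) + -((p : E3) 1 * (p : E3) 1) := by
  have h : ‖(p : E3)‖ = 1 := norm_eq_of_mem_sphere p
  have h2 : ‖(p : E3)‖ ^ 2 = 1 := by rw [h]; norm_num
  rw [EuclideanSpace.real_norm_sq_eq, Fin.sum_univ_three] at h2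
  linarith

theorem exists_params (k : Type) [Field k] [Algebra k ℝ] {n : ℕ} (P : Fin n → S2) :
    ∃ S : Set ℝ, S.Finite ∧ S.ncard ≤ 2 * n ∧ ∀ v i, Alg k S ((P v : E3) i) := by
  refine ⟨range fun z : Fin n × Fin 2 => (P z.1 : E3) (Fin.castSucc z.2), finite_range _, ?_, ?_⟩
  · rw [← image_univ]
    refine (ncard_image_le finite_univ).trans ?_
    rw [ncard_univ, Nat.card_eq_fintype_card, Fintype.card_prod, Fintype.card_fin,
      Fintype.card_fin, mul_comm]
  · intro v
    have h0 : Alg k (range fun z : Fin n × Fin 2 => (P z.1 : E3) (Fin.castSucc z.2))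
        ((P v : E3) 0) := Alg.of_mem k ⟨(v, 0), rfl⟩
    have h1 : Alg k (range fun z : Fin n × Fin 2 => (P z.1 : E3) (Fin.castSucc z.2))
        ((P v : E3) 1) := Alg.of_mem k ⟨(v, 1), rfl⟩
    have hone : Alg k (range fun z : Fin n × Fin 2 => (P z.1 : E3) (Fin.castSucc z.2))
        (1 : ℝ) := by
      have := Alg.algebraMap k (S := range fun z : Fin n × Fin 2 =>
        (P z.1 : E3) (Fin.castSucc z.2)) (1 : k)
      rwa [map_one] at this
    have h2 : Alg k (range fun z : Fin n × Fin 2 => (P z.1 : E3) (Fin.castSucc z.2))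
        ((P v : E3) 2) := by
      refine Alg.of_sq k ?_
      rw [sq_coord]
      exact Alg.add k (Alg.add k hone (Alg.neg k (Alg.mul k h0 h0))) (Alg.neg k (Alg.mul k h1 h1))
    intro i
    fin_cases i
    · exact h0
    · exact h1
    · exact h2

end Pool.Agent.Helper7.TP
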