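import Pool.Agent.Helper7.TP.Merid

/-! # Project TP, module D: the zero set of the incidence function on the sphere is a circle -/

set_option autoImplicit false

namespace Pool.Agent.Helper7.TP

open Metric Set Topology

private theorem curve_frame (l : S2) : ∃ a b : S2, inner ℝ (a : E3) (b : E3) = 0 ∧
    inner ℝ (a : E3) (l : E3) = 0 ∧ inner ℝ (b : E3) (l : E3) = 0 ∧ ∀ p : E3,
      inner ℝ (a : E3) p • (a : E3) + inner ℝ (b : E3) p • (b : E3) +
        inner ℝ (l : E3) p • (l : E3) = p ∧
      inner ℝ (a : E3) p ^ 2 + inner ℝ (b : E3) p ^ 2 + inner ℝ (l : E3) p ^ 2 = ‖p‖ ^ 2 := by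
  have hl : ‖(l : E3)‖ = 1 := norm_eq_of_mem_sphere l
  have hv : Orthonormal ℝ (({2} : Set (Fin 3)).domRestrict fun _ : Fin 3 => (l : E3)) := by
    constructor
    · intro i
      exact hl
    · intro i j hij
      exact absurd (Subtype.ext (i.2.trans j.2.symm)) hij
  obtain ⟨B, hB⟩ := Orthonormal.exists_orthonormalBasis_extension_of_card_eq
    (card_ι := by simp) hv
  have h2 : B 2 = (l : E3) := hB 2 rfl
  refine ⟨⟨B 0, mem_sphere_zero_iff_norm.2 (B.orthonormal.1 0)⟩,
    ⟨B 1, mem_sphere_zero_iff_norm.2 (B.orthonormal.1 1)⟩, B.orthonormal.2 (by decide), ?_, ?_, ?_⟩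
  · change inner ℝ (B 0) (l : E3) = 0
    rw [← h2]
    exact B.orthonormal.2 (by decide)
  · change inner ℝ (B 1) (l : E3) = 0
    rw [← h2]
    exact B.orthonormal.2 (by decide)
  · intro p
    have h3 := B.sum_repr' p
    have h4 := B.sum_sq_norm_inner_right p
    rw [Fin.sum_univ_three, h2] at h3 h4
    refine ⟨h3, ?_⟩
    simpa only [Real.norm_eq_abs, sq_abs] using h4

private theorem curve_norm {a b : S2} (hab : inner ℝ (a : E3) (b : E3) = 0) (z : Circle) :
    (z : ℂ).re • (a : E3) + (z : ℂ).im • (b : E3) ∈ sphere (0 : E3) 1 := by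
  rw [mem_sphere_zero_iff_norm]
  have ha : ‖(a : E3)‖ = 1 := norm_eq_of_mem_sphere a
  have hb : ‖(b : E3)‖ = 1 := norm_eq_of_mem_sphere b
  have hz : (z : ℂ).re ^ 2 + (z : ℂ).im ^ 2 = 1 := by
    have := Circle.normSq_coe z
    rw [Complex.normSq_apply] at this
    nlinarith
  have h1 : ‖(z : ℂ).re • (a : E3) + (z : ℂ).im • (b : E3)‖ ^ 2 = 1 := by
    rw [norm_add_sq_real, norm_smul, norm_smul, ha, hb, inner_smul_left, inner_smul_right, hab]
    simp only [Real.norm_eq_abs, mul_one, sq_abs, mul_zero, add_zero]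
    exact hz
  have h2 : (0 : ℝ) ≤ ‖(z : ℂ).re • (a : E3) + (z : ℂ).im • (b : E3)‖ := norm_nonneg _
  nlinarith [sq_nonneg (‖(z : ℂ).re • (a : E3) + (z : ℂ).im • (b : E3)‖ - 1)]

/-- The unit vector orthogonal to `l` in the direction `z`. -/
private noncomputable def cu {a b : S2} (hab : inner ℝ (a : E3) (b : E3) = 0) (z : Circle) : S2 :=
  ⟨(z : ℂ).re • (a : E3) + (z : ℂ).im • (b : E3), curve_norm hab z⟩

private theorem cu_orth {a b l : S2} (hab : inner ℝ (a : E3) (b : E3) = 0)
    (hal : inner ℝ (a : E3) (l : E3) = 0) (hbl : inner ℝ (b : E3) (l : E3) = 0) (z : Circle) :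
    inner ℝ (cu hab z : E3) (l : E3) = 0 := by
  change inner ℝ ((z : ℂ).re • (a : E3) + (z : ℂ).im • (b : E3)) (l : E3) = 0
  rw [inner_add_left, inner_smul_left, inner_smul_left, hal, hbl]
  simp

theorem exists_curve {K : S2 → S2 → ℝ} (hK : IsKer (1 / 16) K) (l : S2) :
    ∃ c : Circle → S2, Continuous c ∧ Function.Injective c ∧ range c = {p | H K p l = 0} ∧
      ∀ z, c (-z) = -c z := by
  obtain ⟨a, b, hab, hal, hbl, hrep⟩ := curve_frame l
  have ha : ‖(a : E3)‖ = 1 := norm_eq_of_mem_sphere a
  have hb : ‖(b : E3)‖ = 1 := norm_eq_of_mem_sphere b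
  have haa : inner ℝ (a : E3) (a : E3) = 1 := by rw [real_inner_self_eq_norm_sq, ha, one_pow]
  have hbb : inner ℝ (b : E3) (b : E3) = 1 := by rw [real_inner_self_eq_norm_sq, hb, one_pow]
  have hba : inner ℝ (b : E3) (a : E3) = 0 := by rw [real_inner_comm]; exact hab
  -- the complex number of a point
  let v : S2 → ℂ := fun p => ⟨inner ℝ (a : E3) (p : E3), inner ℝ (b : E3) (p : E3)⟩
  have hvc : Continuous v := by
    have h1 : Continuous fun p : S2 => inner ℝ (a : E3) (p : E3) :=
      continuous_const.inner continuous_subtype_val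
    have h2 : Continuous fun p : S2 => inner ℝ (b : E3) (p : E3) :=
      continuous_const.inner continuous_subtype_val
    have h3 : Continuous fun p : S2 =>
        ((inner ℝ (a : E3) (p : E3) : ℝ) : ℂ) + ((inner ℝ (b : E3) (p : E3) : ℝ) : ℂ) * Complex.I :=
      (Complex.continuous_ofReal.comp h1).add
        ((Complex.continuous_ofReal.comp h2).mul continuous_const)
    refine h3.congr fun p => ?_
    apply Complex.ext <;> simp [v]
  -- a point of the zero set
  have hpt : ∀ p : S2, H K p l = 0 → ∃ (z : Circle) (θ : ℝ), 0 < Real.cos θ ∧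
      -(Real.pi / 2) ≤ θ ∧ θ ≤ Real.pi / 2 ∧ mer (cu hab z) l (cu_orth hab hal hbl z) θ = p := by
    intro p hp
    obtain ⟨w, hw, θ, h1, h2, hwp⟩ := exists_mer l p
    obtain ⟨θ₀, g1, g2, g3, g4, g5⟩ := mer_zero hK w l hw
    have hθ : θ = θ₀ := by
      rcases lt_trichotomy θ θ₀ with h | h | h
      · have := g5 θ h1 h
        rw [hwp, hp] at this
        exact absurd this (lt_irrefl _)
      · exact h
      · have := g4 θ h h2
        rw [hwp, hp] at this
        exact absurd this (lt_irrefl _)
    have hcos : 0 < Real.cos θ := by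
      apply Real.cos_pos_of_mem_Ioo
      have := Real.pi_pos
      constructor <;> linarith
    have hw' := hrep (w : E3)
    have hlw : inner ℝ (l : E3) (w : E3) = 0 := by rw [real_inner_comm]; exact hw
    rw [hlw] at hw'
    have hnw : ‖(w : E3)‖ = 1 := norm_eq_of_mem_sphere w
    have hvw : ‖v w‖ = 1 := by
      have h3 : ‖v w‖ ^ 2 = 1 := by
        rw [← Complex.normSq_eq_norm_sq, Complex.normSq_apply]
        have h4 := hw'.2
        rw [hnw] at h4
        change inner ℝ (a : E3) (w : E3) * inner ℝ (a : E3) (w : E3) +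
          inner ℝ (b : E3) (w : E3) * inner ℝ (b : E3) (w : E3) = 1
        nlinarith
      have h4 := norm_nonneg (v w)
      nlinarith
    let z : Circle := ⟨v w, mem_sphere_zero_iff_norm.2 hvw⟩
    have hz : (z : ℂ) = v w := rfl
    have hcu : cu hab z = w := by
      apply Subtype.ext
      change (z : ℂ).re • (a : E3) + (z : ℂ).im • (b : E3) = w
      rw [hz]
      have h5 := hw'.1
      rw [zero_smul, add_zero] at h5
      exact h5
    refine ⟨z, θ, hcos, h1, h2, ?_⟩
    rw [← hwp]
    apply Subtype.ext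
    change Real.cos θ • (cu hab z : E3) + Real.sin θ • (l : E3) =
      Real.cos θ • (w : E3) + Real.sin θ • (l : E3)
    rw [hcu]
  -- the complex number of a point of a meridian
  have hvm : ∀ (z : Circle) (θ : ℝ), v (mer (cu hab z) l (cu_orth hab hal hbl z) θ) =
      (Real.cos θ : ℂ) * z := by
    intro z θ
    have e1 : inner ℝ (a : E3) (mer (cu hab z) l (cu_orth hab hal hbl z) θ : E3) =
        Real.cos θ * (z : ℂ).re := by
      change inner ℝ (a : E3) (Real.cos θ • ((z : ℂ).re • (a : E3) + (z : ℂ).im • (b : E3)) +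
        Real.sin θ • (l : E3)) = _
      rw [inner_add_right, inner_smul_right, inner_smul_right, inner_add_right, inner_smul_right,
        inner_smul_right, haa, hab, hal]
      ring
    have e2 : inner ℝ (b : E3) (mer (cu hab z) l (cu_orth hab hal hbl z) θ : E3) =
        Real.cos θ * (z : ℂ).im := by
      change inner ℝ (b : E3) (Real.cos θ • ((z : ℂ).re • (a : E3) + (z : ℂ).im • (b : E3)) +
        Real.sin θ • (l : E3)) = _
      rw [inner_add_right, inner_smul_right, inner_smul_right, inner_add_right, inner_smul_right,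
        inner_smul_right, hba, hbb, hbl]
      ring
    apply Complex.ext
    · change inner ℝ (a : E3) (mer (cu hab z) l (cu_orth hab hal hbl z) θ : E3) = _
      rw [e1, Complex.re_ofReal_mul]
    · change inner ℝ (b : E3) (mer (cu hab z) l (cu_orth hab hal hbl z) θ : E3) = _
      rw [e2, Complex.im_ofReal_mul]
  have hne : ∀ p : S2, H K p l = 0 → v p ≠ 0 := by
    intro p hp
    obtain ⟨z, θ, hc, -, -, hm⟩ := hpt p hp
    rw [← hm, hvm]
    exact mul_ne_zero (by exact_mod_cast hc.ne') (Circle.coe_ne_zero z)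
  -- the projection
  let Z : Set S2 := {p | H K p l = 0}
  let π : Z → Circle := fun p => ⟨v p.1 / ‖v p.1‖, mem_sphere_zero_iff_norm.2 (by
    rw [norm_div, Complex.norm_real, norm_norm]
    exact div_self (norm_ne_zero_iff.2 (hne p.1 p.2)))⟩
  have hπc : Continuous π := by
    refine Continuous.subtype_mk ?_ _
    refine (hvc.comp continuous_subtype_val).div
      (Complex.continuous_ofReal.comp (continuous_norm.comp (hvc.comp continuous_subtype_val))) ?_
    intro p
    exact_mod_cast norm_ne_zero_iff.2 (hne p.1 p.2)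
  have hπm : ∀ (p : Z) (z : Circle) (θ : ℝ), 0 < Real.cos θ →
      mer (cu hab z) l (cu_orth hab hal hbl z) θ = p.1 → π p = z := by
    intro p z θ hc hm
    apply Circle.ext
    change v p.1 / ‖v p.1‖ = (z : ℂ)
    rw [← hm, hvm, norm_mul, Circle.norm_coe, mul_one, Complex.norm_real, Real.norm_eq_abs,
      abs_of_pos hc]
    have h1 : ((Real.cos θ : ℝ) : ℂ) ≠ 0 := by exact_mod_cast hc.ne'
    field_simp
  have hbij : Function.Bijective π := by
    constructor
    · intro p q hpq
      obtain ⟨z, θ, hc, h1, h2, hm⟩ := hpt p.1 p.2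
      obtain ⟨z', θ', hc', h1', h2', hm'⟩ := hpt q.1 q.2
      have e1 := hπm p z θ hc hm
      have e2 := hπm q z' θ' hc' hm'
      have hzz : z = z' := by rw [← e1, ← e2, hpq]
      subst hzz
      obtain ⟨θ₀, g1, g2, g3, g4, g5⟩ := mer_zero hK (cu hab z) l (cu_orth hab hal hbl z)
      have huniq : ∀ t, -(Real.pi / 2) ≤ t → t ≤ Real.pi / 2 →
          H K (mer (cu hab z) l (cu_orth hab hal hbl z) t) l = 0 → t = θ₀ := by
        intro t ht1 ht2 ht
        rcases lt_trichotomy t θ₀ with h | h | h
        · have := g5 t ht1 h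
          rw [ht] at this
          exact absurd this (lt_irrefl _)
        · exact h
        · have := g4 t h ht2
          rw [ht] at this
          exact absurd this (lt_irrefl _)
      have f1 : θ = θ₀ := huniq θ h1 h2 (by rw [hm]; exact p.2)
      have f2 : θ' = θ₀ := huniq θ' h1' h2' (by rw [hm']; exact q.2)
      apply Subtype.ext
      rw [← hm, ← hm', f1, f2]
    · intro z
      obtain ⟨θ₀, g1, g2, g3, g4, g5⟩ := mer_zero hK (cu hab z) l (cu_orth hab hal hbl z)
      refine ⟨⟨mer (cu hab z) l (cu_orth hab hal hbl z) θ₀, g3⟩, hπm _ z θ₀ ?_ rfl⟩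
      apply Real.cos_pos_of_mem_Ioo
      have := Real.pi_pos
      constructor <;> linarith
  have hZc : IsClosed Z := by
    have h1 : Continuous fun p : S2 => H K p l :=
      (continuous_H hK).comp (continuous_id.prodMk continuous_const)
    exact isClosed_eq h1 continuous_const
  have hcomp : CompactSpace Z := isCompact_iff_compactSpace.1 hZc.isCompact
  let e : Z ≃ Circle := Equiv.ofBijective π hbij
  have hec : Continuous e := hπc
  let h : Z ≃ₜ Circle := hec.homeoOfEquivCompactToT2
  refine ⟨fun z => (h.symm z).1, continuous_subtype_val.comp h.symm.continuous,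
    Subtype.val_injective.comp h.symm.injective, ?_, ?_⟩
  · ext p
    constructor
    · rintro ⟨z, rfl⟩
      exact (h.symm z).2
    · intro hp
      exact ⟨h ⟨p, hp⟩, by simp⟩
  · intro z
    have h1 : H K (-(h.symm z).1) l = 0 := by
      rw [hK.H_neg_left, (h.symm z).2, neg_zero]
    have h2 : π ⟨-(h.symm z).1, h1⟩ = -z := by
      have h3 : π (h.symm z) = z := h.apply_symm_apply z
      have h3c : (z : ℂ) = v (h.symm z).1 / ‖v (h.symm z).1‖ :=
        (congrArg (fun w : Circle => (w : ℂ)) h3).symm
      apply Circle.ext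
      rw [Circle.coe_neg, h3c]
      change v (-(h.symm z).1) / ‖v (-(h.symm z).1)‖ = -(v (h.symm z).1 / ‖v (h.symm z).1‖)
      have h4 : v (-(h.symm z).1) = -v (h.symm z).1 := by
        apply Complex.ext
        · change inner ℝ (a : E3) ((-(h.symm z).1 : S2) : E3) = _
          rw [coe_neg_sphere, inner_neg_right]
          rfl
        · change inner ℝ (b : E3) ((-(h.symm z).1 : S2) : E3) = _
          rw [coe_neg_sphere, inner_neg_right]
          rfl
      rw [h4, norm_neg, neg_div]
    have h5 : h.symm (-z) = ⟨-(h.symm z).1, h1⟩ := by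
      rw [← h2]
      exact h.symm_apply_apply _
    change (h.symm (-z)).1 = -(h.symm z).1
    rw [h5]

end Pool.Agent.Helper7.TP
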