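import Mathlib

/-!
# Arrangements in topological projective planes: definitions

`P2` is the real projective plane (the unit sphere of `ℝ³` modulo `±`). Pseudolines, pseudoline
arrangements, topological projective planes on `P2`, and the presence of an arrangement in a
topological projective plane are defined as usual.
-/

set_option autoImplicit false

namespace Pool.Agent.Helper7.TP

open Metric Set Topology

/-! ### The projective plane -/

/-- The Euclidean space of dimension three. -/
abbrev E3 : Type := EuclideanSpace ℝ (Fin 3)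

/-- The unit sphere. -/
abbrev S2 : Type := sphere (0 : E3) 1

/-- Two points of the unit sphere are identified if they are equal or opposite. -/
def antip : Setoid S2 where
  r p q := q = p ∨ q = -p
  iseqv := by
    refine ⟨fun p => Or.inl rfl, ?_, ?_⟩
    · rintro p q (h | h)
      · exact Or.inl h.symm
      · exact Or.inr (by rw [h, neg_neg])
    · rintro p q r (h | h) (h' | h')
      · exact Or.inl (h'.trans h)
      · exact Or.inr (by rw [h', h])
      · exact Or.inr (by rw [h', h])
      · exact Or.inl (by rw [h', h, neg_neg])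

/-- The real projective plane. -/
def P2 : Type := Quotient antip

instance : TopologicalSpace P2 := inferInstanceAs (TopologicalSpace (Quotient antip))

/-- The point of the projective plane which is represented by a unit vector. -/
def mk (p : S2) : P2 := Quotient.mk antip p

/-! ### Pseudolines and arrangements -/

/-- A pseudoline is a simple closed curve in the projective plane which does not separate it. -/
def IsPseudoline (C : Set P2) : Prop :=
  (∃ γ : Circle → P2, Continuous γ ∧ Function.Injective γ ∧ range γ = C) ∧ IsPreconnected Cᶜ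

/-- The sets `C` and `D` cross at `x`: some homeomorphism of an open neighbourhood of `x` onto an
open neighbourhood of the origin of the plane maps `x` to the origin, and `C` and `D` to the two
coordinate axes. -/
def CrossAt (C D : Set P2) (x : P2) : Prop :=
  ∃ e : OpenPartialHomeomorph P2 (ℝ × ℝ), x ∈ e.source ∧ e x = (0, 0) ∧
    (∀ y ∈ e.source, y ∈ C ↔ (e y).2 = 0) ∧ ∀ y ∈ e.source, y ∈ D ↔ (e y).1 = 0

/-- A pseudoline arrangement: a finite set of at least two pseudolines, any two of which meet in
exactly one point, where they cross. -/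
structure IsArrangement (𝒜 : Set (Set P2)) : Prop where
  finite : 𝒜.Finite
  two_le : 2 ≤ 𝒜.ncard
  pseudoline : ∀ C ∈ 𝒜, IsPseudoline C
  cross : ∀ C ∈ 𝒜, ∀ D ∈ 𝒜, C ≠ D → ∃ x, C ∩ D = {x} ∧ CrossAt C D x

/-- Two sets of curves are isomorphic: some homeomorphism of the projective plane carries the
curves of the first set onto the curves of the second one. -/
def Iso (𝒜 ℬ : Set (Set P2)) : Prop := ∃ h : P2 ≃ₜ P2, (fun C : Set P2 => h '' C) '' 𝒜 = ℬ

/-- A topological projective plane: a set of pseudolines (its lines) such that any two distinct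
points are in exactly one line, and this line depends continuously on the two points. The
continuity is stated for the Vietoris topology on the closed subsets of the compact space `P2`,
that is, for the Hausdorff distance. -/
structure IsTPP (𝓛 : Set (Set P2)) : Prop where
  pseudoline : ∀ C ∈ 𝓛, IsPseudoline C
  join : ∀ p q : P2, p ≠ q → ∃! C, C ∈ 𝓛 ∧ p ∈ C ∧ q ∈ C
  continuous : ∀ p q : P2, p ≠ q → ∀ C ∈ 𝓛, p ∈ C → q ∈ C → ∀ U : Set P2, IsOpen U →
    (C ⊆ U → ∀ᶠ z : P2 × P2 in 𝓝 (p, q), ∀ D ∈ 𝓛, z.1 ∈ D → z.2 ∈ D → z.1 ≠ z.2 → D ⊆ U) ∧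
    ((C ∩ U).Nonempty → ∀ᶠ z : P2 × P2 in 𝓝 (p, q), ∀ D ∈ 𝓛, z.1 ∈ D → z.2 ∈ D → z.1 ≠ z.2 →
      (D ∩ U).Nonempty)

/-- The arrangement `𝒜` is present in the plane `𝓛`: a finite set of lines of the plane is an
arrangement isomorphic to `𝒜`. -/
def Present (𝒜 𝓛 : Set (Set P2)) : Prop := ∃ ℬ ⊆ 𝓛, IsArrangement ℬ ∧ Iso 𝒜 ℬ

/-- The straight line with the normal vector `l`. -/
def straight (l : S2) : Set P2 := {x | ∃ p : S2, mk p = x ∧ inner ℝ (p : E3) (l : E3) = 0}

/-! ### Kernels -/

/-- Kernels of size `ε`. -/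
structure IsKer (ε : ℝ) (K : S2 → S2 → ℝ) : Prop where
  neg_left : ∀ p l, K (-p) l = -K p l
  neg_right : ∀ p l, K p (-l) = -K p l
  small : ∀ p l, |K p l| ≤ ε
  lip_left : ∀ p q l, |K p l - K q l| ≤ ε * ‖(p : E3) - q‖
  lip_right : ∀ p l m, |K p l - K p m| ≤ ε * ‖(l : E3) - m‖
  mixed : ∀ p q l m, |K p l - K q l - K p m + K q m| ≤ ε * ‖(p : E3) - q‖ * ‖(l : E3) - m‖

theorem IsKer.swap {ε : ℝ} {K : S2 → S2 → ℝ} (h : IsKer ε K) : IsKer ε fun p l => K l p where
  neg_left p l := h.neg_right l p
  neg_right p l := h.neg_left l p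
  small p l := h.small l p
  lip_left p q l := h.lip_right l p q
  lip_right p l m := h.lip_left l m p
  mixed p q l m := by
    have := h.mixed l m p q
    rw [show K l p - K l q - K m p + K m q = K l p - K m p - K l q + K m q by ring]
    rwa [mul_right_comm]

/-- The incidence function. -/
noncomputable def H (K : S2 → S2 → ℝ) (p l : S2) : ℝ := inner ℝ (p : E3) (l : E3) + K p l

/-- The line with the index `l`. -/
def line (K : S2 → S2 → ℝ) (l : S2) : Set P2 := {x | ∃ p, mk p = x ∧ H K p l = 0}

/-- The plane with the kernel `K`. -/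
def plane (K : S2 → S2 → ℝ) : Set (Set P2) := range (line K)

theorem IsKer.H_neg_left {ε : ℝ} {K : S2 → S2 → ℝ} (h : IsKer ε K) (p l : S2) :
    H K (-p) l = -H K p l := by
  unfold H
  rw [h.neg_left]
  simp only [coe_neg_sphere, inner_neg_left]
  ring

theorem IsKer.H_neg_right {ε : ℝ} {K : S2 → S2 → ℝ} (h : IsKer ε K) (p l : S2) :
    H K p (-l) = -H K p l := by
  unfold H
  rw [h.neg_right]
  simp only [coe_neg_sphere, inner_neg_right]
  ring

/-- The points of the meridian through `u` and `l`, where `u` is orthogonal to `l`. -/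
noncomputable def mer (u l : S2) (h : inner ℝ (u : E3) (l : E3) = 0) (θ : ℝ) : S2 :=
  ⟨Real.cos θ • (u : E3) + Real.sin θ • (l : E3), by
    rw [mem_sphere_zero_iff_norm]
    have hu : ‖(u : E3)‖ = 1 := norm_eq_of_mem_sphere u
    have hl : ‖(l : E3)‖ = 1 := norm_eq_of_mem_sphere l
    have h1 : ‖Real.cos θ • (u : E3) + Real.sin θ • (l : E3)‖ ^ 2 = 1 := by
      rw [norm_add_sq_real, norm_smul, norm_smul, hu, hl, inner_smul_left, inner_smul_right, h]
      simp only [Real.norm_eq_abs, mul_one, sq_abs, mul_zero, add_zero]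
      exact Real.cos_sq_add_sin_sq θ
    have h2 : (0 : ℝ) ≤ ‖Real.cos θ • (u : E3) + Real.sin θ • (l : E3)‖ := norm_nonneg _
    nlinarith [sq_nonneg (‖Real.cos θ • (u : E3) + Real.sin θ • (l : E3)‖ - 1)]⟩

/-! ### Polynomial kernels -/

/-- The index set of the coefficients. -/
abbrev Idx (D : ℕ) : Type := (Fin D → Fin 3) × (Fin D → Fin 3)

/-- The monomial with the index `j`. -/
def mon {D : ℕ} (j : Idx D) (p l : S2) : ℝ :=
  (∏ i, (p : E3) (j.1 i)) * ∏ i, (l : E3) (j.2 i)

/-- The kernel with the coefficients `c`. -/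
def KP {D : ℕ} (c : Idx D → ℝ) (p l : S2) : ℝ := ∑ j, c j * mon j p l

/-! ### Incidence systems -/

/-- The kernel `K` has a system of `V` points and `L` lines with the incidences `inc`. -/
def HasSystem (K : S2 → S2 → ℝ) {V L : ℕ} (inc : Finset (Fin V × Fin L)) (P : Fin V → S2)
    (M : Fin L → S2) : Prop :=
  (∀ v w, mk (P v) = mk (P w) → v = w) ∧ (∀ i j, mk (M i) = mk (M j) → i = j) ∧
    ∀ z ∈ inc, H K (P z.1) (M z.2) = 0

/-- Incidence systems are sparse in the plane with the kernel `K`. -/
def Sparse (K : S2 → S2 → ℝ) : Prop :=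
  ∀ (V L : ℕ) (inc : Finset (Fin V × Fin L)) (P : Fin V → S2) (M : Fin L → S2),
    HasSystem K inc P M → inc.card ≤ 2 * V + 2 * L

end Pool.Agent.Helper7.TP
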