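import Pool.Agent.Helper7.TP.Top

/-! # Project TP, module K: the monomials separate points -/

set_option autoImplicit false

namespace Pool.Agent.Helper7.TP

open Metric Set Topology

private theorem ev_sep (p q : S2) (h : mk p ≠ mk q) :
    ∃ w : E3, inner ℝ w (p : E3) = 0 ∧ inner ℝ w (q : E3) ≠ 0 := by
  have hp : ‖(p : E3)‖ = 1 := norm_eq_of_mem_sphere p
  have hq : ‖(q : E3)‖ = 1 := norm_eq_of_mem_sphere q
  set c : ℝ := inner ℝ (q : E3) (p : E3) with hc
  refine ⟨(q : E3) - c • (p : E3), ?_, ?_⟩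
  · rw [inner_sub_left, inner_smul_left, real_inner_self_eq_norm_sq, hp, ← hc]
    simp
  · intro h0
    have h1 : inner ℝ ((q : E3) - c • (p : E3)) (p : E3) = 0 := by
      rw [inner_sub_left, inner_smul_left, real_inner_self_eq_norm_sq, hp, ← hc]
      simp
    have h2 : inner ℝ ((q : E3) - c • (p : E3)) ((q : E3) - c • (p : E3)) = 0 := by
      rw [inner_sub_right, inner_smul_right, h0, h1]
      simp
    rw [inner_self_eq_zero, sub_eq_zero] at h2
    have h3 : |c| = 1 := by
      have h4 := congrArg norm h2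
      rw [norm_smul, hp, hq, mul_one] at h4
      exact h4.symm
    apply h
    apply Quotient.sound
    rcases eq_or_eq_neg_of_abs_eq h3 with h5 | h5
    · left
      apply Subtype.ext
      rw [h2, h5, one_smul]
    · right
      apply Subtype.ext
      rw [h2, h5, coe_neg_sphere]
      simp

private theorem ev_sum {D : ℕ} (w z : Fin D → E3) (p l : S2) :
    ∑ j : Idx D, ((∏ i, w i (j.1 i)) * ∏ i, z i (j.2 i)) * mon j p l =
      (∏ i, inner ℝ (w i) (p : E3)) * ∏ i, inner ℝ (z i) (l : E3) := by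
  have h1 : ∀ (w : Fin D → E3) (p : E3), ∏ i, inner ℝ (w i) p =
      ∑ f : Fin D → Fin 3, ∏ i, (w i (f i) * p (f i)) := by
    intro w p
    have h2 : ∀ i, inner ℝ (w i) p = ∑ k, w i k * p k := by
      intro i
      rw [PiLp.inner_apply]
      refine Finset.sum_congr rfl fun k _ => ?_
      simp [mul_comm]
    simp only [h2]
    rw [Finset.prod_univ_sum, Fintype.piFinset_univ]
  rw [h1, h1, Finset.sum_mul_sum, Fintype.sum_prod_type]
  refine Finset.sum_congr rfl fun f _ => Finset.sum_congr rfl fun g _ => ?_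
  unfold mon
  rw [Finset.prod_mul_distrib, Finset.prod_mul_distrib]
  ring

theorem mon_indep {D N : ℕ} (hN : N ≤ D) (P M : Fin N → S2)
    (hd : ∀ r s, mk (P r) = mk (P s) → mk (M r) = mk (M s) → r = s) :
    LinearIndependent ℝ fun (r : Fin N) (j : Idx D) => mon j (P r) (M r) := by
  classical
  rw [Fintype.linearIndependent_iff]
  intro a ha r0
  have hne : ∀ p : S2, inner ℝ (p : E3) (p : E3) ≠ 0 := by
    intro p
    rw [real_inner_self_eq_norm_sq, norm_eq_of_mem_sphere p]
    norm_num
  have key : ∀ s : Fin N, ∃ w z : E3, inner ℝ w (P r0 : E3) ≠ 0 ∧ inner ℝ z (M r0 : E3) ≠ 0 ∧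
      (s ≠ r0 → inner ℝ w (P s : E3) = 0 ∨ inner ℝ z (M s : E3) = 0) := by
    intro s
    by_cases hs : s = r0
    · exact ⟨P r0, M r0, hne _, hne _, fun h => absurd hs h⟩
    · by_cases h1 : mk (P s) = mk (P r0)
      · have h2 : mk (M s) ≠ mk (M r0) := fun h2 => hs (hd s r0 h1 h2)
        obtain ⟨z, hz1, hz2⟩ := ev_sep _ _ h2
        exact ⟨P r0, z, hne _, hz2, fun _ => Or.inr hz1⟩
      · obtain ⟨w, hw1, hw2⟩ := ev_sep _ _ h1
        exact ⟨w, M r0, hw2, hne _, fun _ => Or.inl hw1⟩
  choose w z hw hz hwz using key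
  let w' : Fin D → E3 := fun i => if h : i.1 < N then w ⟨i.1, h⟩ else (P r0 : E3)
  let z' : Fin D → E3 := fun i => if h : i.1 < N then z ⟨i.1, h⟩ else (M r0 : E3)
  have hw' : ∀ i, inner ℝ (w' i) (P r0 : E3) ≠ 0 := by
    intro i
    by_cases h : i.1 < N
    · simp only [w', dif_pos h]; exact hw _
    · simp only [w', dif_neg h]; exact hne _
  have hz' : ∀ i, inner ℝ (z' i) (M r0 : E3) ≠ 0 := by
    intro i
    by_cases h : i.1 < N
    · simp only [z', dif_pos h]; exact hz _
    · simp only [z', dif_neg h]; exact hne _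
  have hcomb : ∀ j : Idx D, ∑ r, a r * mon j (P r) (M r) = 0 := by
    intro j
    have h1 := congrFun ha j
    rw [Finset.sum_apply] at h1
    simpa using h1
  have htot : ∑ r, a r * ((∏ i, inner ℝ (w' i) (P r : E3)) * ∏ i, inner ℝ (z' i) (M r : E3)) = 0 := by
    calc ∑ r, a r * ((∏ i, inner ℝ (w' i) (P r : E3)) * ∏ i, inner ℝ (z' i) (M r : E3))
        = ∑ r, a r * ∑ j : Idx D, ((∏ i, w' i (j.1 i)) * ∏ i, z' i (j.2 i)) *
            mon j (P r) (M r) := by
          refine Finset.sum_congr rfl fun r _ => ?_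
          rw [ev_sum]
      _ = ∑ j : Idx D, ((∏ i, w' i (j.1 i)) * ∏ i, z' i (j.2 i)) *
            ∑ r, a r * mon j (P r) (M r) := by
          simp only [Finset.mul_sum]
          rw [Finset.sum_comm]
          refine Finset.sum_congr rfl fun j _ => Finset.sum_congr rfl fun r _ => ?_
          ring
      _ = 0 := by
          apply Finset.sum_eq_zero
          intro j _
          rw [hcomb j, mul_zero]
  rw [Finset.sum_eq_single r0] at htot
  · rcases mul_eq_zero.1 htot with h | h
    · exact h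
    · exfalso
      rcases mul_eq_zero.1 h with h | h
      · rw [Finset.prod_eq_zero_iff] at h
        obtain ⟨i, -, hi⟩ := h
        exact hw' i hi
      · rw [Finset.prod_eq_zero_iff] at h
        obtain ⟨i, -, hi⟩ := h
        exact hz' i hi
  · intro r _ hr
    have hrD : r.1 < D := r.2.trans_le hN
    rcases hwz r hr with h | h
    · have h1 : ∏ i, inner ℝ (w' i) (P r : E3) = 0 := by
        apply Finset.prod_eq_zero (Finset.mem_univ (⟨r.1, hrD⟩ : Fin D))
        simp only [w', dif_pos r.2]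
        exact h
      rw [h1, zero_mul, mul_zero]
    · have h1 : ∏ i, inner ℝ (z' i) (M r : E3) = 0 := by
        apply Finset.prod_eq_zero (Finset.mem_univ (⟨r.1, hrD⟩ : Fin D))
        simp only [z', dif_pos r.2]
        exact h
      rw [h1, mul_zero, mul_zero]
  · intro h
    exact absurd (Finset.mem_univ r0) h

end Pool.Agent.Helper7.TP
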