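import Pool.Agent.Helper7.TP.Top

/-! # Project TP, module U: fifteen straight lines with many multiple points -/

set_option autoImplicit false

namespace Pool.Agent.Helper7.TP

open Metric Set Topology

/-- The normal vectors of the lines. -/
def exL : Fin 15 → Fin 3 → ℤ :=
  ![![2, 1, -2], ![2, 0, -1], ![0, 1, -1], ![1, 1, 1], ![1, 2, 0], ![2, 1, -1], ![0, 1, 1],
    ![1, 0, -2], ![1, -1, -2], ![1, 1, 0], ![0, 1, 0], ![1, -1, -1], ![0, 0, 1], ![1, 0, 0],
    ![1, 1, -1]]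

/-- The points. -/
def exP : Fin 22 → Fin 3 → ℤ :=
  ![![1, 2, 2], ![4, -2, 3], ![1, -2, 0], ![2, -2, 1], ![1, 0, 1], ![1, -3, 2], ![1, 0, 2],
    ![0, 1, 0], ![1, -1, 2], ![2, -1, -1], ![0, 1, 1], ![1, 0, 0], ![2, 1, 1], ![2, -3, 1],
    ![0, 1, -1], ![1, -1, 0], ![2, -1, 3], ![2, -1, 1], ![0, 0, 1], ![1, -1, 1], ![2, 0, 1],
    ![1, 1, 0]]

/-- An integer vector as a vector of the Euclidean space. -/
private def toE (a : Fin 3 → ℤ) : E3 := WithLp.toLp 2 fun i => (a i : ℝ)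

private theorem toE_apply (a : Fin 3 → ℤ) (i : Fin 3) : toE a i = (a i : ℝ) := rfl

private theorem toE_ne {a : Fin 3 → ℤ} (h : a ≠ 0) : toE a ≠ 0 := by
  intro h0
  refine h (funext fun i => ?_)
  have h1 : toE a i = (0 : ℝ) := by
    rw [h0]
    rfl
  rw [toE_apply] at h1
  exact Int.cast_eq_zero.1 h1

private theorem inner_toE (a b : Fin 3 → ℤ) :
    inner ℝ (toE a) (toE b) = ((∑ k, a k * b k : ℤ) : ℝ) := by
  rw [PiLp.inner_apply]
  push_cast
  refine Finset.sum_congr rfl fun k _ => ?_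
  rw [toE_apply, toE_apply]
  simp [mul_comm]

/-- The normalised vector. -/
private noncomputable def unitE (a : Fin 3 → ℤ) (h : a ≠ 0) : S2 :=
  ⟨‖toE a‖⁻¹ • toE a, by
    rw [mem_sphere_zero_iff_norm, norm_smul, norm_inv, norm_norm,
      inv_mul_cancel₀ (norm_ne_zero_iff.2 (toE_ne h))]⟩

private theorem minors_of_mk_eq {a b : Fin 3 → ℤ} (ha : a ≠ 0) (hb : b ≠ 0)
    (h : mk (unitE a ha) = mk (unitE b hb)) (i j : Fin 3) : a i * b j = a j * b i := by
  have hb' : ‖toE b‖ ≠ 0 := norm_ne_zero_iff.2 (toE_ne hb)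
  obtain ⟨c, hc⟩ : ∃ c : ℝ, toE b = c • toE a := by
    rcases mk_eq_mk.1 h with h1 | h1
    · have h2 : ‖toE b‖⁻¹ • toE b = ‖toE a‖⁻¹ • toE a := congrArg Subtype.val h1
      refine ⟨‖toE b‖ * ‖toE a‖⁻¹, ?_⟩
      rw [mul_smul, ← h2, smul_smul, mul_inv_cancel₀ hb', one_smul]
    · have h2 : ‖toE b‖⁻¹ • toE b = -(‖toE a‖⁻¹ • toE a) := congrArg Subtype.val h1
      refine ⟨-(‖toE b‖ * ‖toE a‖⁻¹), ?_⟩
      rw [neg_smul, mul_smul, ← smul_neg, ← h2, smul_smul, mul_inv_cancel₀ hb', one_smul]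
  have h3 : ∀ k, (b k : ℝ) = c * a k := by
    intro k
    have h4 : toE b k = (c • toE a) k := by rw [hc]
    exact h4
  have h5 : (a i : ℝ) * b j = a j * b i := by
    rw [h3, h3]
    ring
  exact_mod_cast h5

private theorem exL_ne : ∀ i, exL i ≠ 0 := by decide

private theorem exP_ne : ∀ v, exP v ≠ 0 := by decide

private theorem exL_minor : ∀ i j, (∀ k l : Fin 3, exL i k * exL j l = exL i l * exL j k) →
    i = j := by decide +kernel

private theorem exP_minor : ∀ i j, (∀ k l : Fin 3, exP i k * exP j l = exP i l * exP j k) →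
    i = j := by decide +kernel

theorem exists_example : ∃ (P : Fin 22 → S2) (M : Fin 15 → S2) (inc : Finset (Fin 22 × Fin 15)),
    inc.card = 75 ∧ (∀ v w, mk (P v) = mk (P w) → v = w) ∧
      (∀ i j, mk (M i) = mk (M j) → i = j) ∧
        ∀ z ∈ inc, inner ℝ (P z.1 : E3) (M z.2 : E3) = 0 := by
  refine ⟨fun v => unitE (exP v) (exP_ne v), fun i => unitE (exL i) (exL_ne i),
    Finset.univ.filter fun z => ∑ k, exP z.1 k * exL z.2 k = 0, ?_, ?_, ?_, ?_⟩
  · decide +kernel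
  · exact fun v w h => exP_minor v w fun k l => minors_of_mk_eq _ _ h k l
  · exact fun v w h => exL_minor v w fun k l => minors_of_mk_eq _ _ h k l
  · intro z hz
    rw [Finset.mem_filter] at hz
    change inner ℝ (‖toE (exP z.1)‖⁻¹ • toE (exP z.1)) (‖toE (exL z.2)‖⁻¹ • toE (exL z.2)) = 0
    rw [inner_smul_left, inner_smul_right, inner_toE, hz.2]
    simp

end Pool.Agent.Helper7.TP
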