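import Pool.Agent.Helper7.TP.Merid

/-! # Project TP, module G: the line depends continuously on its index -/

set_option autoImplicit false

namespace Pool.Agent.Helper7.TP

open Metric Set Topology

theorem line_upper {K : S2 → S2 → ℝ} (hK : IsKer (1 / 16) K) (l₀ : S2) {U : Set P2}
    (hU : IsOpen U) (h : line K l₀ ⊆ U) : ∀ᶠ l in 𝓝 l₀, line K l ⊆ U := by
  have hc : IsClosed {z : S2 × S2 | H K z.2 z.1 = 0 ∧ mk z.2 ∉ U} := by
    apply IsClosed.inter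
    · exact isClosed_eq ((continuous_H hK).comp continuous_swap) continuous_const
    · exact (hU.isClosed_compl).preimage (continuous_mk.comp continuous_snd)
  have hp : IsClosed (Prod.fst '' {z : S2 × S2 | H K z.2 z.1 = 0 ∧ mk z.2 ∉ U}) :=
    isClosedMap_fst_of_compactSpace _ hc
  have hn : l₀ ∈ (Prod.fst '' {z : S2 × S2 | H K z.2 z.1 = 0 ∧ mk z.2 ∉ U})ᶜ := by
    rintro ⟨⟨l, p⟩, ⟨h1, h2⟩, rfl⟩
    exact h2 (h ⟨p, rfl, h1⟩)
  filter_upwards [hp.isOpen_compl.mem_nhds hn] with l hl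
  rintro x ⟨p, rfl, hp⟩
  by_contra hx
  exact hl ⟨(l, p), ⟨hp, hx⟩, rfl⟩

theorem line_lower {K : S2 → S2 → ℝ} (hK : IsKer (1 / 16) K) (l₀ : S2) {U : Set P2}
    (hU : IsOpen U) (h : (line K l₀ ∩ U).Nonempty) :
    ∀ᶠ l in 𝓝 l₀, (line K l ∩ U).Nonempty := by
  obtain ⟨x, ⟨p₀, rfl, hp₀⟩, hx⟩ := h
  obtain ⟨u, hu, θ, h1, h2, h3⟩ := exists_mer l₀ p₀
  obtain ⟨θ₀, a1, a2, a3, a4, a5⟩ := mer_zero hK u l₀ hu
  have hpi : 0 < Real.pi := Real.pi_pos
  have hθ : θ = θ₀ := by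
    rcases lt_trichotomy θ θ₀ with h | h | h
    · have := a5 θ h1 h
      rw [h3, hp₀] at this
      exact absurd this (lt_irrefl _)
    · exact h
    · have := a4 θ h h2
      rw [h3, hp₀] at this
      exact absurd this (lt_irrefl _)
  subst hθ
  have hcm : Continuous (mer u l₀ hu) := continuous_mer u l₀ hu
  have hV : IsOpen ((fun t => mk (mer u l₀ hu t)) ⁻¹' U) := hU.preimage (continuous_mk.comp hcm)
  have hmem : θ ∈ (fun t => mk (mer u l₀ hu t)) ⁻¹' U := by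
    change mk (mer u l₀ hu θ) ∈ U
    rw [h3]
    exact hx
  obtain ⟨δ, hδ, hball⟩ := Metric.isOpen_iff.1 hV θ hmem
  obtain ⟨d, hd, hdδ, hdpi⟩ : ∃ d : ℝ, 0 < d ∧ d < δ ∧ d ≤ Real.pi / 4 :=
    ⟨min (δ / 2) (Real.pi / 4), by positivity, lt_of_le_of_lt (min_le_left _ _) (by linarith),
      min_le_right _ _⟩
  have hb : 0 < H K (mer u l₀ hu (θ + d)) l₀ := a4 _ (by linarith) (by linarith)
  have ha : H K (mer u l₀ hu (θ - d)) l₀ < 0 := a5 _ (by linarith) (by linarith)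
  have hcH := continuous_H hK
  have eb : ∀ᶠ l in 𝓝 l₀, 0 < H K (mer u l₀ hu (θ + d)) l :=
    (hcH.comp (Continuous.prodMk_right (mer u l₀ hu (θ + d)))).continuousAt.eventually_const_lt hb
  have ea : ∀ᶠ l in 𝓝 l₀, H K (mer u l₀ hu (θ - d)) l < 0 :=
    (hcH.comp (Continuous.prodMk_right (mer u l₀ hu (θ - d)))).continuousAt.eventually_lt_const ha
  filter_upwards [ea, eb] with l la lb
  have hcont : ContinuousOn (fun t => H K (mer u l₀ hu t) l) (Icc (θ - d) (θ + d)) :=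
    (hcH.comp (hcm.prodMk continuous_const)).continuousOn
  obtain ⟨t, ht, ht0⟩ := intermediate_value_Icc (by linarith : θ - d ≤ θ + d) hcont
    (show (0 : ℝ) ∈ Icc _ _ from ⟨la.le, lb.le⟩)
  refine ⟨mk (mer u l₀ hu t), ⟨_, rfl, ht0⟩, ?_⟩
  apply hball
  rw [Metric.mem_ball, Real.dist_eq, abs_lt]
  exact ⟨by linarith [ht.1], by linarith [ht.2]⟩

end Pool.Agent.Helper7.TP
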