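import Pool.Agent.Helper7.TP.Curve

/-! # Project TP, module F: two points are on a line -/

set_option autoImplicit false

namespace Pool.Agent.Helper7.TP

open Metric Set Topology

private theorem H_swap (K : S2 → S2 → ℝ) (p l : S2) : H (fun a b => K b a) l p = H K p l := by
  unfold H
  rw [real_inner_comm]

theorem exists_join {K : S2 → S2 → ℝ} (hK : IsKer (1 / 16) K) (p q : S2) :
    ∃ l, H K p l = 0 ∧ H K q l = 0 := by
  obtain ⟨c, hc, -, hr, hneg⟩ := exists_curve hK.swap p
  have hz : ∀ z, H K p (c z) = 0 := by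
    intro z
    have h1 : c z ∈ {l | H (fun p l => K l p) l p = 0} := hr ▸ mem_range_self z
    have h2 : H (fun p l => K l p) (c z) p = 0 := h1
    rw [← H_swap K p (c z)]
    exact h2
  have hcont : Continuous fun z : Circle => H K q (c z) :=
    (continuous_H hK).comp (continuous_const.prodMk hc)
  have hodd : ∀ z, H K q (c (-z)) = -H K q (c z) := by
    intro z
    rw [hneg, hK.H_neg_right]
  have h0 : (0 : ℝ) ∈ range fun z : Circle => H K q (c z) := by
    rcases le_total (H K q (c 1)) 0 with h | h
    · exact mem_range_of_exists_le_of_exists_ge hcont ⟨1, h⟩ ⟨-1, by rw [hodd]; linarith⟩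
    · exact mem_range_of_exists_le_of_exists_ge hcont ⟨-1, by rw [hodd]; linarith⟩ ⟨1, h⟩
  obtain ⟨z, hz0⟩ := h0
  exact ⟨c z, hz z, hz0⟩

end Pool.Agent.Helper7.TP
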