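import Pool.Agent.Helper7.TP.Top

/-! # Project TP, module B: two points on two lines -/

set_option autoImplicit false

namespace Pool.Agent.Helper7.TP

open Metric Set Topology

/-- Four nonzero vectors of the three-dimensional space are not almost orthogonal. -/
private theorem four_aux (v : Fin 4 → E3) (h0 : ∀ i, v i ≠ 0)
    (h : ∀ i j, i ≠ j → |inner ℝ (v j) (v i)| ≤ ‖v i‖ * ‖v j‖ / 8) : False := by
  have hnl : ¬ LinearIndependent ℝ v := by
    intro hl
    have := hl.fintype_card_le_finrank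
    simp at this
  rw [Fintype.not_linearIndependent_iff] at hnl
  obtain ⟨g, hg, k, hk⟩ := hnl
  obtain ⟨i, -, hi⟩ := Finset.exists_max_image (Finset.univ : Finset (Fin 4))
    (fun j => |g j| * ‖v j‖) ⟨0, Finset.mem_univ _⟩
  have hvi : 0 < ‖v i‖ := norm_pos_iff.2 (h0 i)
  have hpos : 0 < |g i| * ‖v i‖ :=
    lt_of_lt_of_le (mul_pos (abs_pos.2 hk) (norm_pos_iff.2 (h0 k))) (hi k (Finset.mem_univ k))
  have h1 : inner ℝ (∑ j, g j • v j) (v i) = 0 := by
    rw [hg, inner_zero_left]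
  rw [sum_inner, ← Finset.add_sum_erase _ _ (Finset.mem_univ i), inner_smul_left,
    real_inner_self_eq_norm_sq] at h1
  simp only [conj_trivial] at h1
  have h2 : |∑ j ∈ Finset.univ.erase i, inner ℝ (g j • v j) (v i)| ≤
      ∑ _j ∈ Finset.univ.erase i, (|g i| * ‖v i‖) * (‖v i‖ / 8) := by
    refine (Finset.abs_sum_le_sum_abs _ _).trans (Finset.sum_le_sum fun j hj => ?_)
    rw [inner_smul_left]
    simp only [conj_trivial]
    rw [abs_mul]
    have h3 := h i j (Finset.ne_of_mem_erase hj).symm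
    have h4 := hi j (Finset.mem_univ j)
    calc |g j| * |inner ℝ (v j) (v i)| ≤ |g j| * (‖v i‖ * ‖v j‖ / 8) :=
          mul_le_mul_of_nonneg_left h3 (abs_nonneg _)
      _ = (|g j| * ‖v j‖) * (‖v i‖ / 8) := by ring
      _ ≤ (|g i| * ‖v i‖) * (‖v i‖ / 8) := mul_le_mul_of_nonneg_right h4 (by positivity)
  rw [Finset.sum_const, Finset.card_erase_of_mem (Finset.mem_univ i)] at h2
  simp only [Finset.card_univ, Fintype.card_fin, nsmul_eq_mul] at h2
  have h5 : ∑ j ∈ Finset.univ.erase i, inner ℝ (g j • v j) (v i) = -(g i * ‖v i‖ ^ 2) := by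
    linarith
  rw [h5, abs_neg, abs_mul, abs_of_nonneg (by positivity : (0 : ℝ) ≤ ‖v i‖ ^ 2)] at h2
  have h6 : |g i| * ‖v i‖ ^ 2 = (|g i| * ‖v i‖) * ‖v i‖ := by ring
  rw [h6] at h2
  have h7 : 0 < (|g i| * ‖v i‖) * ‖v i‖ := mul_pos hpos hvi
  norm_num at h2
  linarith

/-- The main step. -/
private theorem uniq_aux {K : S2 → S2 → ℝ} (hK : IsKer (1 / 16) K) {p q l m : S2}
    (h1 : H K p l = 0) (h2 : H K q l = 0) (h3 : H K p m = 0) (h4 : H K q m = 0)
    (hpq : 0 ≤ inner ℝ (p : E3) (q : E3)) (hlm : 0 ≤ inner ℝ (l : E3) (m : E3))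
    (hne : p ≠ q) (hne' : l ≠ m) : False := by
  have np : ‖(p : E3)‖ = 1 := norm_eq_of_mem_sphere p
  have nq : ‖(q : E3)‖ = 1 := norm_eq_of_mem_sphere q
  have nl : ‖(l : E3)‖ = 1 := norm_eq_of_mem_sphere l
  have nm : ‖(m : E3)‖ = 1 := norm_eq_of_mem_sphere m
  have e1 : inner ℝ (p : E3) (l : E3) = -K p l := by unfold H at h1; linarith
  have e2 : inner ℝ (q : E3) (l : E3) = -K q l := by unfold H at h2; linarith
  have e3 : inner ℝ (p : E3) (m : E3) = -K p m := by unfold H at h3; linarith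
  have e4 : inner ℝ (q : E3) (m : E3) = -K q m := by unfold H at h4; linarith
  have hd : (p : E3) - q ≠ 0 := fun h => hne (Subtype.ext (sub_eq_zero.1 h))
  have hf : (l : E3) - m ≠ 0 := fun h => hne' (Subtype.ext (sub_eq_zero.1 h))
  have ns : 2 ≤ ‖(p : E3) + q‖ ^ 2 := by
    rw [norm_add_sq_real, np, nq]
    linarith
  have nt : 2 ≤ ‖(l : E3) + m‖ ^ 2 := by
    rw [norm_add_sq_real, nl, nm]
    linarith
  have ns0 := norm_nonneg ((p : E3) + q)
  have nt0 := norm_nonneg ((l : E3) + m)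
  have nd0 := norm_nonneg ((p : E3) - q)
  have nf0 := norm_nonneg ((l : E3) - m)
  have ns1 : 1 ≤ ‖(p : E3) + q‖ := by nlinarith
  have nt1 : 1 ≤ ‖(l : E3) + m‖ := by nlinarith
  have nst : 2 ≤ ‖(p : E3) + q‖ * ‖(l : E3) + m‖ := by
    have h5 : 4 ≤ (‖(p : E3) + q‖ * ‖(l : E3) + m‖) ^ 2 := by
      rw [mul_pow]
      nlinarith
    have h6 : 0 ≤ ‖(p : E3) + q‖ * ‖(l : E3) + m‖ := mul_nonneg ns0 nt0
    nlinarith
  have hs : (p : E3) + q ≠ 0 := by
    intro h
    rw [h, norm_zero] at ns1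
    linarith
  have ht : (l : E3) + m ≠ 0 := by
    intro h
    rw [h, norm_zero] at nt1
    linarith
  have b1 : |inner ℝ ((p : E3) - q) ((l : E3) - m)| ≤ ‖(p : E3) - q‖ * ‖(l : E3) - m‖ / 16 := by
    have h5 := hK.mixed p q l m
    have h6 : inner ℝ ((p : E3) - q) ((l : E3) - m) = -(K p l - K q l - K p m + K q m) := by
      rw [inner_sub_left, inner_sub_right, inner_sub_right, e1, e2, e3, e4]
      ring
    rw [h6, abs_neg]
    linarith
  have b2 : |inner ℝ ((p : E3) - q) ((l : E3) + m)| ≤ ‖(p : E3) - q‖ / 8 := by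
    have h5 := hK.lip_left p q l
    have h6 := hK.lip_left p q m
    have h7 : inner ℝ ((p : E3) - q) ((l : E3) + m) = -((K p l - K q l) + (K p m - K q m)) := by
      rw [inner_sub_left, inner_add_right, inner_add_right, e1, e2, e3, e4]
      ring
    rw [h7, abs_neg]
    have h8 := abs_add_le (K p l - K q l) (K p m - K q m)
    linarith
  have b3 : |inner ℝ ((p : E3) + q) ((l : E3) - m)| ≤ ‖(l : E3) - m‖ / 8 := by
    have h5 := hK.lip_right p l m
    have h6 := hK.lip_right q l m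
    have h7 : inner ℝ ((p : E3) + q) ((l : E3) - m) = -((K p l - K p m) + (K q l - K q m)) := by
      rw [inner_add_left, inner_sub_right, inner_sub_right, e1, e2, e3, e4]
      ring
    rw [h7, abs_neg]
    have h8 := abs_add_le (K p l - K p m) (K q l - K q m)
    linarith
  have b4 : |inner ℝ ((p : E3) + q) ((l : E3) + m)| ≤ 1 / 4 := by
    have h5 := hK.small p l
    have h6 := hK.small q l
    have h7 := hK.small p m
    have h8 := hK.small q m
    rw [inner_add_left, inner_add_right, inner_add_right, e1, e2, e3, e4]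
    rw [abs_le] at h5 h6 h7 h8 ⊢
    constructor <;> linarith [h5.1, h5.2, h6.1, h6.2, h7.1, h7.2, h8.1, h8.2]
  have b5 : inner ℝ ((p : E3) - q) ((p : E3) + q) = 0 := by
    rw [inner_sub_left, inner_add_right, inner_add_right, real_inner_self_eq_norm_sq,
      real_inner_self_eq_norm_sq, np, nq, real_inner_comm (q : E3) (p : E3)]
    ring
  have b6 : inner ℝ ((l : E3) - m) ((l : E3) + m) = 0 := by
    rw [inner_sub_left, inner_add_right, inner_add_right, real_inner_self_eq_norm_sq,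
      real_inner_self_eq_norm_sq, nl, nm, real_inner_comm (m : E3) (l : E3)]
    ring
  have c1 : |inner ℝ ((p : E3) - q) ((l : E3) - m)| ≤ ‖(p : E3) - q‖ * ‖(l : E3) - m‖ / 8 := by
    have : 0 ≤ ‖(p : E3) - q‖ * ‖(l : E3) - m‖ := mul_nonneg nd0 nf0
    linarith
  have c2 : |inner ℝ ((p : E3) - q) ((l : E3) + m)| ≤ ‖(p : E3) - q‖ * ‖(l : E3) + m‖ / 8 := by
    have : ‖(p : E3) - q‖ * 1 ≤ ‖(p : E3) - q‖ * ‖(l : E3) + m‖ :=
      mul_le_mul_of_nonneg_left nt1 nd0
    linarith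
  have c3 : |inner ℝ ((p : E3) + q) ((l : E3) - m)| ≤ ‖(p : E3) + q‖ * ‖(l : E3) - m‖ / 8 := by
    have : 1 * ‖(l : E3) - m‖ ≤ ‖(p : E3) + q‖ * ‖(l : E3) - m‖ :=
      mul_le_mul_of_nonneg_right ns1 nf0
    linarith
  have c4 : |inner ℝ ((p : E3) + q) ((l : E3) + m)| ≤ ‖(p : E3) + q‖ * ‖(l : E3) + m‖ / 8 := by
    linarith
  have c5 : |inner ℝ ((p : E3) - q) ((p : E3) + q)| ≤ ‖(p : E3) - q‖ * ‖(p : E3) + q‖ / 8 := by
    rw [b5, abs_zero]
    positivity
  have c6 : |inner ℝ ((l : E3) - m) ((l : E3) + m)| ≤ ‖(l : E3) - m‖ * ‖(l : E3) + m‖ / 8 := by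
    rw [b6, abs_zero]
    positivity
  refine four_aux ![(p : E3) - q, (p : E3) + q, (l : E3) - m, (l : E3) + m] ?_ ?_
  · intro i
    fin_cases i
    · exact hd
    · exact hs
    · exact hf
    · exact ht
  · have key : ∀ a b : E3, |inner ℝ a b| ≤ ‖a‖ * ‖b‖ / 8 → |inner ℝ b a| ≤ ‖a‖ * ‖b‖ / 8 := by
      intro a b h
      rwa [real_inner_comm]
    have key' : ∀ a b : E3, |inner ℝ a b| ≤ ‖a‖ * ‖b‖ / 8 → |inner ℝ a b| ≤ ‖b‖ * ‖a‖ / 8 := by
      intro a b h
      rwa [mul_comm ‖b‖]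
    intro i j hij
    fin_cases i <;> fin_cases j
    · exact absurd rfl hij
    · exact key _ _ c5
    · exact key _ _ c1
    · exact key _ _ c2
    · exact key' _ _ c5
    · exact absurd rfl hij
    · exact key _ _ c3
    · exact key _ _ c4
    · exact key' _ _ c1
    · exact key' _ _ c3
    · exact absurd rfl hij
    · exact key _ _ c6
    · exact key' _ _ c2
    · exact key' _ _ c4
    · exact key' _ _ c6
    · exact absurd rfl hij

theorem uniq {K : S2 → S2 → ℝ} (hK : IsKer (1 / 16) K) {p q l m : S2} (h1 : H K p l = 0)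
    (h2 : H K q l = 0) (h3 : H K p m = 0) (h4 : H K q m = 0) : mk p = mk q ∨ mk l = mk m := by
  by_contra hcon
  rw [not_or] at hcon
  obtain ⟨ha, hb⟩ := hcon
  have hpq : p ≠ q := fun h => ha (h ▸ rfl)
  have hpq' : p ≠ -q := fun h => ha (by rw [mk_eq_mk]; exact Or.inr (by rw [h, neg_neg]))
  have hlm : l ≠ m := fun h => hb (h ▸ rfl)
  have hlm' : l ≠ -m := fun h => hb (by rw [mk_eq_mk]; exact Or.inr (by rw [h, neg_neg]))
  have g2 : H K (-q) l = 0 := by rw [hK.H_neg_left, h2, neg_zero]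
  have g3 : H K p (-m) = 0 := by rw [hK.H_neg_right, h3, neg_zero]
  have g4 : H K (-q) m = 0 := by rw [hK.H_neg_left, h4, neg_zero]
  have g5 : H K q (-m) = 0 := by rw [hK.H_neg_right, h4, neg_zero]
  have g6 : H K (-q) (-m) = 0 := by rw [hK.H_neg_right, g4, neg_zero]
  rcases le_total 0 (inner ℝ (p : E3) (q : E3)) with i1 | i1 <;>
    rcases le_total 0 (inner ℝ (l : E3) (m : E3)) with i2 | i2
  · exact uniq_aux hK h1 h2 h3 h4 i1 i2 hpq hlm
  · refine uniq_aux hK h1 h2 g3 g5 i1 ?_ hpq hlm'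
    rw [coe_neg_sphere, inner_neg_right]
    linarith
  · refine uniq_aux hK h1 g2 h3 g4 ?_ i2 hpq' hlm
    rw [coe_neg_sphere, inner_neg_right]
    linarith
  · refine uniq_aux hK h1 g2 g3 g6 ?_ ?_ hpq' hlm'
    · rw [coe_neg_sphere, inner_neg_right]
      linarith
    · rw [coe_neg_sphere, inner_neg_right]
      linarith

end Pool.Agent.Helper7.TP
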