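import Pool.Agent.Helper7.TP.Merid
import Pool.Agent.Helper7.TP.Uniq

/-! # Project TP, module H: the join depends continuously on the points -/

set_option autoImplicit false

namespace Pool.Agent.Helper7.TP

open Metric Set Topology

theorem join_cont {K : S2 → S2 → ℝ} (hK : IsKer (1 / 16) K) {p₀ q₀ l₀ : S2}
    (hpq : mk p₀ ≠ mk q₀) (h1 : H K p₀ l₀ = 0) (h2 : H K q₀ l₀ = 0) {W : Set S2}
    (hW : W ∈ 𝓝 l₀) :
    ∀ᶠ z : S2 × S2 in 𝓝 (p₀, q₀), ∀ l, H K z.1 l = 0 → H K z.2 l = 0 → l ∈ W ∨ -l ∈ W := by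
  obtain ⟨V, hVW, hV, hlV⟩ := _root_.mem_nhds_iff.1 hW
  have hcH := continuous_H hK
  have hneg : Continuous fun l : S2 => -l := continuous_neg
  have hc : IsClosed {z : (S2 × S2) × S2 |
      (H K z.1.1 z.2 = 0 ∧ H K z.1.2 z.2 = 0) ∧ (z.2 ∉ V ∧ -z.2 ∉ V)} := by
    refine IsClosed.inter (IsClosed.inter ?_ ?_) (IsClosed.inter ?_ ?_)
    · exact isClosed_eq (hcH.comp ((continuous_fst.comp continuous_fst).prodMk continuous_snd))
        continuous_const
    · exact isClosed_eq (hcH.comp ((continuous_snd.comp continuous_fst).prodMk continuous_snd))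
        continuous_const
    · exact hV.isClosed_compl.preimage continuous_snd
    · exact hV.isClosed_compl.preimage (hneg.comp continuous_snd)
  have hp := isClosedMap_fst_of_compactSpace _ hc
  have hn : (p₀, q₀) ∈ (Prod.fst '' {z : (S2 × S2) × S2 |
      (H K z.1.1 z.2 = 0 ∧ H K z.1.2 z.2 = 0) ∧ (z.2 ∉ V ∧ -z.2 ∉ V)})ᶜ := by
    rintro ⟨⟨⟨p, q⟩, l⟩, ⟨⟨a, b⟩, c, d⟩, he⟩
    obtain ⟨rfl, rfl⟩ := Prod.mk.inj he
    rcases uniq hK h1 h2 a b with h | h
    · exact hpq h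
    · rcases mk_eq_mk.1 h with h | h
      · exact c (h ▸ hlV)
      · exact d (by rw [h, neg_neg]; exact hlV)
  filter_upwards [hp.isOpen_compl.mem_nhds hn] with z hz l a b
  by_contra hx
  rw [not_or] at hx
  exact hz ⟨(z, l), ⟨⟨a, b⟩, fun h => hx.1 (hVW h), fun h => hx.2 (hVW h)⟩, rfl⟩

end Pool.Agent.Helper7.TP
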