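import Pool.Agent.Helper7.TP.Top

/-! # Project TP, module J: polynomial kernels -/

set_option autoImplicit false

namespace Pool.Agent.Helper7.TP

open Metric Set Topology

private lemma abs_coord_le (p : S2) (i : Fin 3) : |(p : E3) i| ≤ 1 := by
  have h := PiLp.norm_apply_le (p : E3) i
  rw [norm_eq_of_mem_sphere p, Real.norm_eq_abs] at h
  exact h

private lemma abs_coord_sub_le (p q : S2) (i : Fin 3) :
    |(p : E3) i - (q : E3) i| ≤ ‖(p : E3) - q‖ := by
  have h := PiLp.norm_apply_le ((p : E3) - (q : E3)) i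
  rw [Real.norm_eq_abs] at h
  exact h

private lemma abs_prod_le {D : ℕ} (a : Fin D → Fin 3) (p : S2) (s : Finset (Fin D)) :
    |∏ i ∈ s, (p : E3) (a i)| ≤ 1 := by
  rw [Finset.abs_prod]
  exact Finset.prod_le_one (fun i _ => abs_nonneg _) (fun i _ => abs_coord_le p (a i))

private lemma abs_prod_sub_le {D : ℕ} (a : Fin D → Fin 3) (p q : S2) (s : Finset (Fin D)) :
    |∏ i ∈ s, (p : E3) (a i) - ∏ i ∈ s, (q : E3) (a i)| ≤ s.card * ‖(p : E3) - q‖ := by
  classical
  induction s using Finset.induction_on with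
  | empty => simp
  | insert x s hx ih =>
    rw [Finset.prod_insert hx, Finset.prod_insert hx, Finset.card_insert_of_notMem hx]
    have h1 : (p : E3) (a x) * ∏ i ∈ s, (p : E3) (a i) - (q : E3) (a x) * ∏ i ∈ s, (q : E3) (a i) =
        ((p : E3) (a x) - (q : E3) (a x)) * ∏ i ∈ s, (p : E3) (a i) +
          (q : E3) (a x) * (∏ i ∈ s, (p : E3) (a i) - ∏ i ∈ s, (q : E3) (a i)) := by ring
    rw [h1]
    refine (abs_add_le _ _).trans ?_
    rw [abs_mul, abs_mul]
    have h2 := abs_coord_sub_le p q (a x)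
    have h3 := abs_prod_le a p s
    have h4 := abs_coord_le q (a x)
    have h5 : |(p : E3) (a x) - (q : E3) (a x)| * |∏ i ∈ s, (p : E3) (a i)| ≤
        ‖(p : E3) - q‖ * 1 := mul_le_mul h2 h3 (abs_nonneg _) (norm_nonneg _)
    have h6 : |(q : E3) (a x)| * |∏ i ∈ s, (p : E3) (a i) - ∏ i ∈ s, (q : E3) (a i)| ≤
        1 * (s.card * ‖(p : E3) - q‖) := mul_le_mul h4 ih (abs_nonneg _) zero_le_one
    push_cast
    linarith

private lemma prod_neg_coord {D : ℕ} (hD : Odd D) (a : Fin D → Fin 3) (p : S2) :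
    ∏ i, ((-p : S2) : E3) (a i) = -∏ i, (p : E3) (a i) := by
  have h : ∀ i, ((-p : S2) : E3) (a i) = (-1) * (p : E3) (a i) := by
    intro i
    rw [coe_neg_sphere]
    simp
  rw [Finset.prod_congr rfl fun i _ => h i, Finset.prod_mul_distrib, Finset.prod_const,
    Finset.card_univ, Fintype.card_fin, hD.neg_one_pow, neg_one_mul]

private lemma card_Idx (D : ℕ) : (Fintype.card (Idx D) : ℝ) = 9 ^ D := by
  have h : Fintype.card (Idx D) = 9 ^ D := by
    rw [Fintype.card_prod, Fintype.card_fun, Fintype.card_fin, Fintype.card_fin, ← mul_pow]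
    norm_num
  rw [h]
  push_cast
  rfl

private lemma sum_le {D : ℕ} {δ : ℝ} {c : Idx D → ℝ} (hc : ∀ j, |c j| ≤ δ) (hδ : 0 ≤ δ)
    {t : Idx D → ℝ} {B : ℝ} (ht : ∀ j, |t j| ≤ B) : |∑ j, c j * t j| ≤ 9 ^ D * δ * B := by
  refine (Finset.abs_sum_le_sum_abs _ _).trans ?_
  have h : ∀ j ∈ (Finset.univ : Finset (Idx D)), |c j * t j| ≤ δ * B := by
    intro j _
    rw [abs_mul]
    exact mul_le_mul (hc j) (ht j) (abs_nonneg _) hδ
  refine (Finset.sum_le_sum h).trans ?_
  rw [Finset.sum_const, Finset.card_univ, nsmul_eq_mul, card_Idx, mul_assoc]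

theorem isKer_KP {D : ℕ} (hD : Odd D) {δ : ℝ} {c : Idx D → ℝ} (hc : ∀ j, |c j| ≤ δ) :
    IsKer (9 ^ D * (D : ℝ) ^ 2 * δ) (KP c) := by
  have hδ : 0 ≤ δ := (abs_nonneg _).trans (hc (fun _ => 0, fun _ => 0))
  have hD1 : (1 : ℝ) ≤ D := by exact_mod_cast hD.pos
  have hD2 : (D : ℝ) ≤ (D : ℝ) ^ 2 := by nlinarith
  have h9 : (0 : ℝ) ≤ 9 ^ D * δ := by positivity
  refine ⟨?_, ?_, ?_, ?_, ?_, ?_⟩
  · intro p l
    unfold KP mon
    rw [← Finset.sum_neg_distrib]
    refine Finset.sum_congr rfl fun j _ => ?_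
    rw [prod_neg_coord hD]
    ring
  · intro p l
    unfold KP mon
    rw [← Finset.sum_neg_distrib]
    refine Finset.sum_congr rfl fun j _ => ?_
    rw [prod_neg_coord hD]
    ring
  · intro p l
    have h : ∀ j : Idx D, |mon j p l| ≤ 1 := by
      intro j
      unfold mon
      rw [abs_mul]
      exact mul_le_one₀ (abs_prod_le j.1 p Finset.univ) (abs_nonneg _)
        (abs_prod_le j.2 l Finset.univ)
    refine (sum_le hc hδ h).trans ?_
    nlinarith
  · intro p q l
    have h : ∀ j : Idx D, |mon j p l - mon j q l| ≤ D * ‖(p : E3) - q‖ := by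
      intro j
      unfold mon
      rw [← sub_mul, abs_mul]
      have h1 := abs_prod_sub_le j.1 p q Finset.univ
      rw [Finset.card_univ, Fintype.card_fin] at h1
      calc _ ≤ (D * ‖(p : E3) - q‖) * 1 :=
            mul_le_mul h1 (abs_prod_le j.2 l Finset.univ) (abs_nonneg _) (by positivity)
        _ = _ := mul_one _
    have h2 : KP c p l - KP c q l = ∑ j, c j * (mon j p l - mon j q l) := by
      unfold KP
      rw [← Finset.sum_sub_distrib]
      exact Finset.sum_congr rfl fun j _ => by ring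
    rw [h2]
    refine (sum_le hc hδ h).trans ?_
    have h3 : 0 ≤ 9 ^ D * δ * ‖(p : E3) - q‖ := by positivity
    nlinarith
  · intro p l m
    have h : ∀ j : Idx D, |mon j p l - mon j p m| ≤ D * ‖(l : E3) - m‖ := by
      intro j
      unfold mon
      rw [← mul_sub, abs_mul]
      have h1 := abs_prod_sub_le j.2 l m Finset.univ
      rw [Finset.card_univ, Fintype.card_fin] at h1
      calc _ ≤ 1 * (D * ‖(l : E3) - m‖) :=
            mul_le_mul (abs_prod_le j.1 p Finset.univ) h1 (abs_nonneg _) zero_le_one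
        _ = _ := one_mul _
    have h2 : KP c p l - KP c p m = ∑ j, c j * (mon j p l - mon j p m) := by
      unfold KP
      rw [← Finset.sum_sub_distrib]
      exact Finset.sum_congr rfl fun j _ => by ring
    rw [h2]
    refine (sum_le hc hδ h).trans ?_
    have h3 : 0 ≤ 9 ^ D * δ * ‖(l : E3) - m‖ := by positivity
    nlinarith
  · intro p q l m
    have h : ∀ j : Idx D, |mon j p l - mon j q l - mon j p m + mon j q m| ≤
        (D * ‖(p : E3) - q‖) * (D * ‖(l : E3) - m‖) := by
      intro j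
      have h0 : mon j p l - mon j q l - mon j p m + mon j q m =
          (∏ i, (p : E3) (j.1 i) - ∏ i, (q : E3) (j.1 i)) *
            (∏ i, (l : E3) (j.2 i) - ∏ i, (m : E3) (j.2 i)) := by
        unfold mon
        ring
      rw [h0, abs_mul]
      have h1 := abs_prod_sub_le j.1 p q Finset.univ
      have h2 := abs_prod_sub_le j.2 l m Finset.univ
      rw [Finset.card_univ, Fintype.card_fin] at h1 h2
      exact mul_le_mul h1 h2 (abs_nonneg _) (by positivity)
    have h2 : KP c p l - KP c q l - KP c p m + KP c q m =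
        ∑ j, c j * (mon j p l - mon j q l - mon j p m + mon j q m) := by
      unfold KP
      rw [← Finset.sum_sub_distrib, ← Finset.sum_sub_distrib, ← Finset.sum_add_distrib]
      exact Finset.sum_congr rfl fun j _ => by ring
    rw [h2]
    refine (sum_le hc hδ h).trans (le_of_eq ?_)
    ring

end Pool.Agent.Helper7.TP
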