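import Pool.Agent.Helper7.TP.Merid

/-! # Project TP, module R: the margin, by compactness -/

set_option autoImplicit false

namespace Pool.Agent.Helper7.TP

open Metric Set Topology

/-- The points of the family `P` and their antipodes have mutual distances at least `s`. -/
def Sep {V : ℕ} (s : ℝ) (P : Fin V → S2) : Prop :=
  ∀ v w, v ≠ w → s ≤ ‖(P v : E3) - P w‖ ∧ s ≤ ‖(P v : E3) + P w‖

private theorem h28_isClosed_sep {V : ℕ} (s : ℝ) : IsClosed {P : Fin V → S2 | Sep s P} := by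
  unfold Sep
  simp only [ofPred_forall]
  refine isClosed_iInter fun v => isClosed_iInter fun w => isClosed_iInter fun _ => ?_
  rw [ofPred_and]
  refine IsClosed.inter ?_ ?_
  · refine isClosed_le continuous_const ?_
    exact ((continuous_subtype_val.comp (continuous_apply v)).sub
      (continuous_subtype_val.comp (continuous_apply w))).norm
  · refine isClosed_le continuous_const ?_
    exact ((continuous_subtype_val.comp (continuous_apply v)).add
      (continuous_subtype_val.comp (continuous_apply w))).norm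

private theorem h28_sep_inj {V : ℕ} {s : ℝ} (hs : 0 < s) {P : Fin V → S2} (h : Sep s P) :
    ∀ v w, mk (P v) = mk (P w) → v = w := by
  intro v w hvw
  by_contra hne
  obtain ⟨h1, h2⟩ := h v w hne
  rcases mk_eq_mk.1 hvw with h3 | h3
  · rw [h3] at h1
    simp at h1
    linarith
  · rw [h3] at h2
    simp at h2
    linarith

theorem exists_margin {ε : ℝ} {K : S2 → S2 → ℝ} (hK : IsKer ε K) {V L : ℕ}
    (inc : Finset (Fin V × Fin L)) (hno : ∀ P M, ¬ HasSystem K inc P M) {s : ℝ} (hs : 0 < s) :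
    ∃ η : ℝ, 0 < η ∧ ∀ (K' : S2 → S2 → ℝ), (∀ p l, |K' p l - K p l| ≤ η) →
      ∀ (P : Fin V → S2) (M : Fin L → S2), Sep s P → Sep s M →
        ¬ ∀ z ∈ inc, H K' (P z.1) (M z.2) = 0 := by
  set F : (Fin V → S2) × (Fin L → S2) → ℝ := fun x => ∑ z ∈ inc, |H K (x.1 z.1) (x.2 z.2)|
    with hF
  have hFc : Continuous F := by
    rw [hF]
    refine continuous_finsetSum _ fun z _ => ?_
    have h1 : Continuous fun x : (Fin V → S2) × (Fin L → S2) => (x.1 z.1, x.2 z.2) :=
      ((continuous_apply z.1).comp continuous_fst).prodMk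
        ((continuous_apply z.2).comp continuous_snd)
    exact ((continuous_H hK).comp h1).abs
  set Z : Set ((Fin V → S2) × (Fin L → S2)) := {x | Sep s x.1 ∧ Sep s x.2} with hZ
  have hZc : IsCompact Z := by
    apply IsClosed.isCompact
    rw [hZ, ofPred_and]
    exact ((h28_isClosed_sep s).preimage continuous_fst).inter
      ((h28_isClosed_sep s).preimage continuous_snd)
  have hpos : ∀ x ∈ Z, 0 < F x := by
    intro x hx
    by_contra hcon
    have h0 : F x = 0 := le_antisymm (not_lt.mp hcon) (Finset.sum_nonneg fun _ _ => abs_nonneg _)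
    rw [hF] at h0
    have h1 := (Finset.sum_eq_zero_iff_of_nonneg (fun _ _ => abs_nonneg _)).1 h0
    exact hno x.1 x.2 ⟨h28_sep_inj hs hx.1, h28_sep_inj hs hx.2,
      fun z hz => abs_eq_zero.1 (h1 z hz)⟩
  obtain ⟨μ, hμ, hμF⟩ : ∃ μ : ℝ, 0 < μ ∧ ∀ x ∈ Z, μ ≤ F x := by
    rcases Z.eq_empty_or_nonempty with hemp | hne
    · exact ⟨1, one_pos, fun x hx => by rw [hemp] at hx; exact absurd hx (notMem_empty x)⟩
    · obtain ⟨x0, hx0, hmin⟩ := hZc.exists_isMinOn hne hFc.continuousOn
      exact ⟨F x0, hpos x0 hx0, fun x hx => hmin hx⟩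
  refine ⟨μ / ((inc.card : ℝ) + 1), by positivity, ?_⟩
  intro K' hK' P M hP hM hall
  have h1 : μ ≤ F (P, M) := hμF (P, M) ⟨hP, hM⟩
  have h2 : F (P, M) ≤ ∑ _z ∈ inc, μ / ((inc.card : ℝ) + 1) := by
    rw [hF]
    refine Finset.sum_le_sum fun z hz => ?_
    have h3 := hall z hz
    have h4 := hK' (P z.1) (M z.2)
    have h5 : H K (P z.1) (M z.2) = -(K' (P z.1) (M z.2) - K (P z.1) (M z.2)) := by
      unfold H at h3 ⊢
      linarith
    simp only
    rw [h5, abs_neg]
    exact h4
  rw [Finset.sum_const, nsmul_eq_mul] at h2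
  have h6 : (inc.card : ℝ) * (μ / ((inc.card : ℝ) + 1)) < μ := by
    rw [← mul_div_assoc, div_lt_iff₀ (by positivity)]
    nlinarith
  linarith

theorem exists_sep {V : ℕ} (P : Fin V → S2) (h : ∀ v w, mk (P v) = mk (P w) → v = w) :
    ∃ j : ℕ, Sep (1 / ((j : ℝ) + 1)) P := by
  have key : ∀ x : Fin V × Fin V, ∃ j : ℕ, x.1 ≠ x.2 →
      1 / ((j : ℝ) + 1) ≤ ‖(P x.1 : E3) - P x.2‖ ∧ 1 / ((j : ℝ) + 1) ≤ ‖(P x.1 : E3) + P x.2‖ := by
    intro x
    by_cases hx : x.1 = x.2
    · exact ⟨0, fun h' => absurd hx h'⟩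
    · have h1 : 0 < ‖(P x.1 : E3) - P x.2‖ := by
        rw [norm_pos_iff]
        intro h0
        have h2 : P x.1 = P x.2 := Subtype.ext (sub_eq_zero.1 h0)
        exact hx (h _ _ (by rw [h2]))
      have h2 : 0 < ‖(P x.1 : E3) + P x.2‖ := by
        rw [norm_pos_iff]
        intro h0
        have h3 : P x.1 = -P x.2 := by
          apply Subtype.ext
          rw [coe_neg_sphere]
          exact eq_neg_of_add_eq_zero_left h0
        exact hx (h _ _ (by rw [h3, mk_neg]))
      obtain ⟨j, hj⟩ := exists_nat_one_div_lt (lt_min h1 h2)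
      exact ⟨j, fun _ => ⟨(hj.trans_le (min_le_left _ _)).le, (hj.trans_le (min_le_right _ _)).le⟩⟩
  choose f hf using key
  refine ⟨Finset.univ.sup f, ?_⟩
  intro v w hvw
  have h1 := hf (v, w) hvw
  have h2 : f (v, w) ≤ Finset.univ.sup f := Finset.le_sup (Finset.mem_univ _)
  have h3 : 1 / (((Finset.univ.sup f : ℕ) : ℝ) + 1) ≤ 1 / ((f (v, w) : ℝ) + 1) := by
    apply one_div_le_one_div_of_le (by positivity)
    have : (f (v, w) : ℝ) ≤ ((Finset.univ.sup f : ℕ) : ℝ) := by exact_mod_cast h2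
    linarith
  exact ⟨h3.trans h1.1, h3.trans h1.2⟩

end Pool.Agent.Helper7.TP
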