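import Pool.Agent.Helper7.TP.Step
import Pool.Agent.Helper7.TP.Margin

/-! # Project TP, module S: a kernel with sparse incidence systems -/

set_option autoImplicit false

namespace Pool.Agent.Helper7.TP

open Metric Set Topology Filter

private theorem h55_mono {ε δ : ℝ} {K : S2 → S2 → ℝ} (h : IsKer ε K) (hεδ : ε ≤ δ) :
    IsKer δ K where
  neg_left := h.neg_left
  neg_right := h.neg_right
  small p l := (h.small p l).trans hεδ
  lip_left p q l := (h.lip_left p q l).trans (mul_le_mul_of_nonneg_right hεδ (norm_nonneg _))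
  lip_right p l m := (h.lip_right p l m).trans (mul_le_mul_of_nonneg_right hεδ (norm_nonneg _))
  mixed p q l m := (h.mixed p q l m).trans
    (mul_le_mul_of_nonneg_right (mul_le_mul_of_nonneg_right hεδ (norm_nonneg _)) (norm_nonneg _))

private theorem h55_add {ε δ : ℝ} {K κ : S2 → S2 → ℝ} (h : IsKer ε K) (h' : IsKer δ κ) :
    IsKer (ε + δ) (fun p l => K p l + κ p l) where
  neg_left p l := by
    rw [h.neg_left, h'.neg_left]
    ring
  neg_right p l := by
    rw [h.neg_right, h'.neg_right]
    ring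
  small p l := (abs_add_le _ _).trans (add_le_add (h.small p l) (h'.small p l))
  lip_left p q l := by
    have h1 := h.lip_left p q l
    have h2 := h'.lip_left p q l
    have h3 := abs_add_le (K p l - K q l) (κ p l - κ q l)
    rw [show K p l - K q l + (κ p l - κ q l) = K p l + κ p l - (K q l + κ q l) by ring] at h3
    rw [add_mul]
    linarith
  lip_right p l m := by
    have h1 := h.lip_right p l m
    have h2 := h'.lip_right p l m
    have h3 := abs_add_le (K p l - K p m) (κ p l - κ p m)
    rw [show K p l - K p m + (κ p l - κ p m) = K p l + κ p l - (K p m + κ p m) by ring] at h3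
    rw [add_mul]
    linarith
  mixed p q l m := by
    have h1 := h.mixed p q l m
    have h2 := h'.mixed p q l m
    have h3 := abs_add_le (K p l - K q l - K p m + K q m) (κ p l - κ q l - κ p m + κ q m)
    rw [show K p l - K q l - K p m + K q m + (κ p l - κ q l - κ p m + κ q m) =
      K p l + κ p l - (K q l + κ q l) - (K p m + κ p m) + (K q m + κ q m) by ring] at h3
    rw [add_mul, add_mul]
    linarith

private theorem h55_zero : IsKer 0 fun _ _ => 0 where
  neg_left p l := by simp
  neg_right p l := by simp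
  small p l := by simp
  lip_left p q l := by simp
  lip_right p l m := by simp
  mixed p q l m := by simp

/-- One step. -/
private theorem h55_step (K : S2 → S2 → ℝ) (a : ℝ) (hK : CtAlg K) (ha : 0 < a)
    (hker : IsKer (1 / 16 - a) K) (V L : ℕ) (inc : Finset (Fin V × Fin L)) (j : ℕ) :
    ∃ (K' : S2 → S2 → ℝ) (a' : ℝ), (CtAlg K' ∧ 0 < a' ∧ IsKer (1 / 16 - a') K') ∧ a' ≤ a / 2 ∧
      (∀ p l, |K' p l - K p l| ≤ a / 2) ∧
      (2 * V + 2 * L < inc.card → ∀ K'' : S2 → S2 → ℝ, (∀ p l, |K'' p l - K' p l| ≤ a') →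
        ∀ (P : Fin V → S2) (M : Fin L → S2), Sep (1 / ((j : ℝ) + 1)) P →
          Sep (1 / ((j : ℝ) + 1)) M → ¬ ∀ z ∈ inc, H K'' (P z.1) (M z.2) = 0) := by
  by_cases hinc : 2 * V + 2 * L < inc.card
  · obtain ⟨κ, hκ, hct, hno⟩ := exists_step hK (half_pos ha) inc hinc
    have hK' : IsKer (1 / 16 - a / 2) (fun p l => K p l + κ p l) := by
      have := h55_add hker hκ
      rwa [show (1 / 16 - a + a / 2 : ℝ) = 1 / 16 - a / 2 by ring] at this
    obtain ⟨η, hη, hmar⟩ := exists_margin hK' inc hno (s := 1 / ((j : ℝ) + 1)) (by positivity)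
    refine ⟨fun p l => K p l + κ p l, min (a / 2) η, ⟨hct, lt_min (half_pos ha) hη, ?_⟩,
      min_le_left _ _, ?_, ?_⟩
    · exact h55_mono hK' (by linarith [min_le_left (a / 2) η])
    · intro p l
      rw [show K p l + κ p l - K p l = κ p l by ring]
      exact hκ.small p l
    · intro _ K'' hK'' P M hP hM
      exact hmar K'' (fun p l => (hK'' p l).trans (min_le_right _ _)) P M hP hM
  · refine ⟨K, a / 2, ⟨hK, half_pos ha, h55_mono hker (by linarith)⟩, le_rfl, ?_, ?_⟩
    · intro p l
      rw [sub_self, abs_zero]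
      exact (half_pos ha).le
    · intro h
      exact absurd h hinc

theorem exists_sparse : ∃ K : S2 → S2 → ℝ, IsKer (1 / 16) K ∧ Sparse K := by
  classical
  obtain ⟨τ, hτ⟩ := exists_surjective_nat
    ((Σ VL : ℕ × ℕ, Finset (Fin VL.1 × Fin VL.2)) × ℕ)
  choose FK Fa hF using h55_step
  let St : Type := {x : (S2 → S2 → ℝ) × ℝ // CtAlg x.1 ∧ 0 < x.2 ∧ IsKer (1 / 16 - x.2) x.1}
  let start : St := ⟨(fun _ _ => 0, 1 / 16), ctAlg_zero, by norm_num, by
    simpa using h55_zero⟩
  let next : ℕ → St → St := fun n x =>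
    ⟨(FK x.1.1 x.1.2 x.2.1 x.2.2.1 x.2.2.2 (τ n).1.1.1 (τ n).1.1.2 (τ n).1.2 (τ n).2,
      Fa x.1.1 x.1.2 x.2.1 x.2.2.1 x.2.2.2 (τ n).1.1.1 (τ n).1.1.2 (τ n).1.2 (τ n).2),
      (hF x.1.1 x.1.2 x.2.1 x.2.2.1 x.2.2.2 (τ n).1.1.1 (τ n).1.1.2 (τ n).1.2 (τ n).2).1⟩
  let seq : ℕ → St := fun n => Nat.rec start (fun m x => next m x) n
  have hseq : ∀ n, seq (n + 1) = next n (seq n) := fun n => rfl
  set K : ℕ → S2 → S2 → ℝ := fun n => (seq n).1.1 with hKdef
  set a : ℕ → ℝ := fun n => (seq n).1.2 with hadef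
  have hapos : ∀ n, 0 < a n := fun n => (seq n).2.2.1
  have hker : ∀ n, IsKer (1 / 16) (K n) := fun n =>
    h55_mono (seq n).2.2.2 (by linarith [hapos n])
  have hstep : ∀ n, a (n + 1) ≤ a n / 2 ∧ (∀ p l, |K (n + 1) p l - K n p l| ≤ a n / 2) ∧
      (2 * (τ n).1.1.1 + 2 * (τ n).1.1.2 < (τ n).1.2.card → ∀ K'' : S2 → S2 → ℝ,
        (∀ p l, |K'' p l - K (n + 1) p l| ≤ a (n + 1)) →
        ∀ (P : Fin (τ n).1.1.1 → S2) (M : Fin (τ n).1.1.2 → S2),
          Sep (1 / (((τ n).2 : ℝ) + 1)) P →
          Sep (1 / (((τ n).2 : ℝ) + 1)) M → ¬ ∀ z ∈ (τ n).1.2, H K'' (P z.1) (M z.2) = 0) :=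
    fun n => (hF (seq n).1.1 (seq n).1.2 (seq n).2.1 (seq n).2.2.1 (seq n).2.2.2
      (τ n).1.1.1 (τ n).1.1.2 (τ n).1.2 (τ n).2).2
  clear_value K a
  have hdist : ∀ n m, n ≤ m → ∀ p l, |K m p l - K n p l| ≤ a n - a m := by
    intro n m hnm p l
    induction m, hnm using Nat.le_induction with
    | base => simp
    | succ m _ ih =>
      obtain ⟨h1, h2, _⟩ := hstep m
      have h3 := h2 p l
      have h4 := abs_add_le (K (m + 1) p l - K m p l) (K m p l - K n p l)
      rw [show K (m + 1) p l - K m p l + (K m p l - K n p l) = K (m + 1) p l - K n p l by ring]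
        at h4
      linarith
  have hageo : ∀ n, a n ≤ a 0 * (1 / 2) ^ n := by
    intro n
    induction n with
    | zero => simp
    | succ n ih =>
      have h1 := (hstep n).1
      rw [pow_succ]
      nlinarith
  have hatend : Tendsto a atTop (𝓝 0) := by
    have h1 : Tendsto (fun n : ℕ => a 0 * (1 / 2 : ℝ) ^ n) atTop (𝓝 (a 0 * 0)) :=
      (tendsto_pow_atTop_nhds_zero_of_lt_one (by norm_num) (by norm_num)).const_mul _
    rw [mul_zero] at h1
    exact squeeze_zero (fun n => (hapos n).le) hageo h1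
  have hcauchy : ∀ p l, ∃ x : ℝ, Tendsto (fun n => K n p l) atTop (𝓝 x) := by
    intro p l
    apply cauchySeq_tendsto_of_complete
    refine cauchySeq_of_le_tendsto_0 (fun n => 2 * a n) ?_ ?_
    · intro n m N hn hm
      have h1 := hdist N n hn p l
      have h2 := hdist N m hm p l
      rw [Real.dist_eq]
      have h4 : |K n p l - K m p l| ≤ |K n p l - K N p l| + |K m p l - K N p l| := by
        rw [abs_sub_comm (K m p l) (K N p l)]
        have := abs_add_le (K n p l - K N p l) (K N p l - K m p l)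
        rwa [show K n p l - K N p l + (K N p l - K m p l) = K n p l - K m p l by ring] at this
      linarith [hapos n, hapos m]
    · simpa using hatend.const_mul 2
  choose L hL using hcauchy
  have hLdist : ∀ n p l, |L p l - K n p l| ≤ a n := by
    intro n p l
    have h1 : Tendsto (fun m => |K m p l - K n p l|) atTop (𝓝 |L p l - K n p l|) :=
      ((hL p l).sub_const _).abs
    refine le_of_tendsto h1 ?_
    filter_upwards [eventually_ge_atTop n] with m hm
    linarith [hdist n m hm p l, hapos m]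
  refine ⟨L, ?_, ?_⟩
  · constructor
    · intro p l
      refine tendsto_nhds_unique (hL (-p) l) ?_
      have h1 := (hL p l).neg
      refine h1.congr fun n => ?_
      rw [(hker n).neg_left]
    · intro p l
      refine tendsto_nhds_unique (hL p (-l)) ?_
      have h1 := (hL p l).neg
      refine h1.congr fun n => ?_
      rw [(hker n).neg_right]
    · intro p l
      exact le_of_tendsto (hL p l).abs (Eventually.of_forall fun n => (hker n).small p l)
    · intro p q l
      exact le_of_tendsto ((hL p l).sub (hL q l)).abs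
        (Eventually.of_forall fun n => (hker n).lip_left p q l)
    · intro p l m
      exact le_of_tendsto ((hL p l).sub (hL p m)).abs
        (Eventually.of_forall fun n => (hker n).lip_right p l m)
    · intro p q l m
      exact le_of_tendsto ((((hL p l).sub (hL q l)).sub (hL p m)).add (hL q m)).abs
        (Eventually.of_forall fun n => (hker n).mixed p q l m)
  · intro V L' inc P M hsys
    by_contra hcon
    rw [not_le] at hcon
    obtain ⟨j1, hj1⟩ := exists_sep P hsys.1
    obtain ⟨j2, hj2⟩ := exists_sep M hsys.2.1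
    have hsep : ∀ (j : ℕ) (W : ℕ) (Q : Fin W → S2) (j' : ℕ), j ≤ j' →
        Sep (1 / ((j : ℝ) + 1)) Q → Sep (1 / ((j' : ℝ) + 1)) Q := by
      intro j W Q j' hjj h v w hvw
      have h1 : 1 / ((j' : ℝ) + 1) ≤ 1 / ((j : ℝ) + 1) := by
        apply one_div_le_one_div_of_le (by positivity)
        have : (j : ℝ) ≤ (j' : ℝ) := by exact_mod_cast hjj
        linarith
      exact ⟨h1.trans (h v w hvw).1, h1.trans (h v w hvw).2⟩
    obtain ⟨n, hn⟩ := hτ (⟨(V, L'), inc⟩, max j1 j2)
    have h1 := (hstep n).2.2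
    rw [hn] at h1
    exact h1 hcon L (hLdist (n + 1)) P M (hsep j1 V P _ (le_max_left _ _) hj1)
      (hsep j2 L' M _ (le_max_right _ _) hj2) hsys.2.2

end Pool.Agent.Helper7.TP
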