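import Pool.Agent.Helper7.TP.Pseudo

/-! # Project TP, module T: straight lines -/

set_option autoImplicit false

namespace Pool.Agent.Helper7.TP

open Metric Set Topology

theorem straight_isPseudoline (l : S2) : IsPseudoline (straight l) := by
  have hK : IsKer (1 / 16) (fun _ _ : S2 => (0 : ℝ)) := by
    refine ⟨fun p l => by simp, fun p l => by simp, fun p l => by simp,
      fun p q l => ?_, fun p l m => ?_, fun p q l m => ?_⟩
    · rw [sub_self, abs_zero]
      positivity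
    · rw [sub_self, abs_zero]
      positivity
    · simp only [sub_self, add_zero, abs_zero]
      positivity
  have h : straight l = line (fun _ _ : S2 => (0 : ℝ)) l := by
    ext x
    simp only [straight, line, H, mem_ofPred_eq, add_zero]
  rw [h]
  exact line_isPseudoline hK l

theorem mk_mem_straight {p l : S2} : mk p ∈ straight l ↔ inner ℝ (p : E3) (l : E3) = 0 := by
  constructor
  · rintro ⟨q, hq, h⟩
    rcases mk_eq_mk.1 hq with h' | h'
    · rw [h']
      exact h
    · rw [h', coe_neg_sphere, inner_neg_left, h, neg_zero]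
  · intro h
    exact ⟨p, rfl, h⟩

/-- The three inner products. -/
noncomputable def triL (c m l : E3) : E3 →ₗ[ℝ] ℝ × ℝ × ℝ where
  toFun v := (inner ℝ v c, inner ℝ v m, inner ℝ v l)
  map_add' v w := by simp [inner_add_left]
  map_smul' r v := by simp [inner_smul_left]

/-- The vector with the given inner products. -/
noncomputable def vst (c m l : E3) (z : ℝ × ℝ) : E3 :=
  c + ((z.2 - inner ℝ l m * z.1) / (1 - inner ℝ l m ^ 2)) • l +
    ((z.1 - inner ℝ l m * z.2) / (1 - inner ℝ l m ^ 2)) • m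

theorem vst_inner {c m l : E3} (hc : ‖c‖ = 1) (hm : ‖m‖ = 1) (hl : ‖l‖ = 1)
    (hcm : inner ℝ c m = 0) (hcl : inner ℝ c l = 0) (ha : 1 - inner ℝ l m ^ 2 ≠ (0 : ℝ))
    (z : ℝ × ℝ) :
    inner ℝ (vst c m l z) c = 1 ∧ inner ℝ (vst c m l z) m = z.1 ∧
      inner ℝ (vst c m l z) l = z.2 := by
  have hcc : inner ℝ c c = (1 : ℝ) := by rw [real_inner_self_eq_norm_sq, hc]; norm_num
  have hmm : inner ℝ m m = (1 : ℝ) := by rw [real_inner_self_eq_norm_sq, hm]; norm_num
  have hll : inner ℝ l l = (1 : ℝ) := by rw [real_inner_self_eq_norm_sq, hl]; norm_num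
  have hmc : inner ℝ m c = (0 : ℝ) := by rw [real_inner_comm]; exact hcm
  have hlc : inner ℝ l c = (0 : ℝ) := by rw [real_inner_comm]; exact hcl
  have hml : inner ℝ m l = (inner ℝ l m : ℝ) := real_inner_comm _ _
  unfold vst
  simp only [inner_add_left, inner_smul_left, conj_trivial]
  rw [hcc, hlc, hmc, hcm, hmm, hcl, hll, hml]
  refine ⟨by ring, ?_, ?_⟩
  · field_simp
    ring
  · field_simp
    ring

theorem triL_injective {c m l : E3} (hc : ‖c‖ = 1) (hm : ‖m‖ = 1) (hl : ‖l‖ = 1)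
    (hcm : inner ℝ c m = 0) (hcl : inner ℝ c l = 0) (ha : 1 - inner ℝ l m ^ 2 ≠ (0 : ℝ)) :
    Function.Injective (triL c m l) := by
  have hfr : Module.finrank ℝ E3 = Module.finrank ℝ (ℝ × ℝ × ℝ) := by
    simp
  rw [LinearMap.injective_iff_surjective_of_finrank_eq_finrank hfr]
  rintro ⟨r, s, t⟩
  have h0 := vst_inner hc hm hl hcm hcl ha (s, t)
  have h1 := vst_inner hc hm hl hcm hcl ha (0, 0)
  refine ⟨vst c m l (s, t) + (r - 1) • vst c m l (0, 0), ?_⟩
  simp only [triL, LinearMap.coe_mk, AddHom.coe_mk, inner_add_left, inner_smul_left,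
    conj_trivial, h0, h1]
  ext <;> simp

theorem inner_sq_ne {l m : S2} (h : mk l ≠ mk m) :
    1 - inner ℝ (l : E3) (m : E3) ^ 2 ≠ (0 : ℝ) := by
  have hl : ‖(l : E3)‖ = 1 := norm_eq_of_mem_sphere l
  have hm : ‖(m : E3)‖ = 1 := norm_eq_of_mem_sphere m
  obtain ⟨h1, h2⟩ := mk_ne h
  intro h0
  have h3 : (inner ℝ (l : E3) (m : E3) : ℝ) ^ 2 = 1 := by linarith
  rcases sq_eq_one_iff.1 h3 with h4 | h4
  · exact h1 (Subtype.ext ((inner_eq_one_iff_of_norm_eq_one hl hm).1 h4).symm)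
  · refine h2 (Subtype.ext ?_)
    rw [coe_neg_sphere]
    have h5 : inner ℝ (-(l : E3)) (m : E3) = (1 : ℝ) := by
      rw [inner_neg_left, h4, neg_neg]
    exact ((inner_eq_one_iff_of_norm_eq_one (by rw [norm_neg, hl]) hm).1 h5).symm

/-- Normalisation. -/
noncomputable def nrm (v : E3) (hv : v ≠ 0) : S2 :=
  ⟨‖v‖⁻¹ • v, by
    rw [mem_sphere_zero_iff_norm, norm_smul, norm_inv, norm_norm,
      inv_mul_cancel₀ (norm_ne_zero_iff.2 hv)]⟩

theorem nrm_coe (v : E3) (hv : v ≠ 0) : ((nrm v hv : S2) : E3) = ‖v‖⁻¹ • v := rfl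

theorem exists_orth (l m : E3) : ∃ c : E3, ‖c‖ = 1 ∧ inner ℝ c m = (0 : ℝ) ∧
    inner ℝ c l = (0 : ℝ) := by
  have h1 : Module.finrank ℝ (Submodule.span ℝ ({l, m} : Set E3)) ≤ 2 := by
    have := finrank_span_finset_le_card (R := ℝ) ({l, m} : Finset E3)
    rw [Finset.coe_insert, Finset.coe_singleton] at this
    exact this.trans Finset.card_le_two
  have h2 : (Submodule.span ℝ ({l, m} : Set E3))ᗮ ≠ ⊥ := by
    intro h
    have h3 := Submodule.finrank_add_finrank_orthogonal (𝕜 := ℝ)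
      (Submodule.span ℝ ({l, m} : Set E3))
    rw [h, finrank_bot, finrank_euclideanSpace_fin] at h3
    omega
  obtain ⟨v, hv, hv0⟩ := Submodule.exists_mem_ne_zero_of_ne_bot h2
  have hvl : inner ℝ v l = (0 : ℝ) := by
    rw [real_inner_comm]
    exact (Submodule.mem_orthogonal _ _).1 hv l (Submodule.subset_span (by simp))
  have hvm : inner ℝ v m = (0 : ℝ) := by
    rw [real_inner_comm]
    exact (Submodule.mem_orthogonal _ _).1 hv m (Submodule.subset_span (by simp))
  refine ⟨‖v‖⁻¹ • v, ?_, ?_, ?_⟩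
  · rw [norm_smul, norm_inv, norm_norm, inv_mul_cancel₀ (norm_ne_zero_iff.2 hv0)]
  · rw [inner_smul_left, hvm, mul_zero]
  · rw [inner_smul_left, hvl, mul_zero]

/-- The affine coordinates. -/
noncomputable def aff (c m l : E3) : P2 → ℝ × ℝ :=
  Quotient.lift (fun p : S2 => ((inner ℝ (p : E3) m / inner ℝ (p : E3) c : ℝ),
    (inner ℝ (p : E3) l / inner ℝ (p : E3) c : ℝ))) (by
      rintro p q (h | h)
      · rw [h]
      · rw [h]
        simp only [coe_neg_sphere, inner_neg_left, neg_div_neg_eq])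

theorem aff_mk (c m l : E3) (p : S2) : aff c m l (mk p) =
    (inner ℝ (p : E3) m / inner ℝ (p : E3) c, inner ℝ (p : E3) l / inner ℝ (p : E3) c) := rfl

theorem vst_ne_zero {c m l : E3} (hc : ‖c‖ = 1) (hm : ‖m‖ = 1) (hl : ‖l‖ = 1)
    (hcm : inner ℝ c m = 0) (hcl : inner ℝ c l = 0) (ha : 1 - inner ℝ l m ^ 2 ≠ (0 : ℝ))
    (z : ℝ × ℝ) : vst c m l z ≠ 0 := by
  intro h
  have h1 := (vst_inner hc hm hl hcm hcl ha z).1
  rw [h, inner_zero_left] at h1
  exact zero_ne_one h1

theorem eq_smul_mk {p q : S2} {r : ℝ} (h : (p : E3) = r • (q : E3)) : mk p = mk q := by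
  have hp : ‖(p : E3)‖ = 1 := norm_eq_of_mem_sphere p
  have hq : ‖(q : E3)‖ = 1 := norm_eq_of_mem_sphere q
  have h1 : |r| = 1 := by
    rw [h, norm_smul, hq, mul_one, Real.norm_eq_abs] at hp
    exact hp
  rcases (abs_eq zero_le_one).1 h1 with h2 | h2
  · have : p = q := Subtype.ext (by rw [h, h2, one_smul])
    rw [this]
  · have : p = -q := Subtype.ext (by rw [h, h2, coe_neg_sphere, neg_smul, one_smul])
    rw [this, mk_neg]

/-- The affine chart. -/
noncomputable def chart (c m l : E3) (hc : ‖c‖ = 1) (hm : ‖m‖ = 1) (hl : ‖l‖ = 1)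
    (hcm : inner ℝ c m = (0 : ℝ)) (hcl : inner ℝ c l = (0 : ℝ))
    (ha : 1 - inner ℝ l m ^ 2 ≠ (0 : ℝ)) : OpenPartialHomeomorph P2 (ℝ × ℝ) where
  toFun := aff c m l
  invFun z := mk (nrm (vst c m l z) (vst_ne_zero hc hm hl hcm hcl ha z))
  source := mk '' {p : S2 | inner ℝ (p : E3) c ≠ (0 : ℝ)}
  target := univ
  map_source' _ _ := mem_univ _
  map_target' z _ := by
    refine mem_image_of_mem _ ?_
    rw [mem_ofPred_eq, nrm_coe, inner_smul_left, (vst_inner hc hm hl hcm hcl ha z).1, mul_one]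
    have := norm_ne_zero_iff.2 (vst_ne_zero hc hm hl hcm hcl ha z)
    simpa using this
  left_inv' := by
    rintro _ ⟨p, hp, rfl⟩
    rw [mem_ofPred_eq] at hp
    set z : ℝ × ℝ := aff c m l (mk p) with hz
    have h1 : vst c m l z = (inner ℝ (p : E3) c : ℝ)⁻¹ • (p : E3) := by
      apply triL_injective hc hm hl hcm hcl ha
      obtain ⟨h2, h3, h4⟩ := vst_inner hc hm hl hcm hcl ha z
      simp only [triL, LinearMap.coe_mk, AddHom.coe_mk, h2, h3, h4, inner_smul_left,
        conj_trivial]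
      rw [hz, aff_mk]
      refine Prod.ext ?_ (Prod.ext ?_ ?_)
      · exact (inv_mul_cancel₀ hp).symm
      · exact div_eq_inv_mul _ _
      · exact div_eq_inv_mul _ _
    apply eq_smul_mk (r := ‖vst c m l z‖⁻¹ * (inner ℝ (p : E3) c : ℝ)⁻¹)
    rw [nrm_coe, mul_smul, ← h1]
  right_inv' z _ := by
    obtain ⟨h2, h3, h4⟩ := vst_inner hc hm hl hcm hcl ha z
    have h5 := norm_ne_zero_iff.2 (vst_ne_zero hc hm hl hcm hcl ha z)
    rw [aff_mk]
    simp only [nrm_coe, inner_smul_left, h2, h3, h4, conj_trivial]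
    refine Prod.ext ?_ ?_
    · field_simp
    · field_simp
  open_source := isOpenMap_mk _ (by
    have : Continuous fun p : S2 => (inner ℝ (p : E3) c : ℝ) := by fun_prop
    exact isOpen_ne.preimage this)
  open_target := isOpen_univ
  continuousOn_toFun := by
    rintro _ ⟨p, hp, rfl⟩
    rw [mem_ofPred_eq] at hp
    apply ContinuousAt.continuousWithinAt
    rw [ContinuousAt, nhds_mk, Filter.tendsto_map'_iff]
    have h1 : ContinuousAt (fun p : S2 => ((inner ℝ (p : E3) m / inner ℝ (p : E3) c : ℝ),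
      (inner ℝ (p : E3) l / inner ℝ (p : E3) c : ℝ))) p := by
      refine ContinuousAt.prodMk (ContinuousAt.div ?_ ?_ hp) (ContinuousAt.div ?_ ?_ hp) <;>
      · apply Continuous.continuousAt
        fun_prop
    exact h1
  continuousOn_invFun := by
    apply Continuous.continuousOn
    refine continuous_mk.comp (Continuous.subtype_mk ?_ _)
    have h1 : Continuous fun z : ℝ × ℝ => vst c m l z := by
      unfold vst
      fun_prop
    exact (h1.norm.inv₀ fun z =>
      norm_ne_zero_iff.2 (vst_ne_zero hc hm hl hcm hcl ha z)).smul h1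

theorem straight_cross {l m : S2} (h : mk l ≠ mk m) :
    ∃ x, straight l ∩ straight m = {x} ∧ CrossAt (straight l) (straight m) x := by
  have ha := inner_sq_ne h
  have hl : ‖(l : E3)‖ = 1 := norm_eq_of_mem_sphere l
  have hm : ‖(m : E3)‖ = 1 := norm_eq_of_mem_sphere m
  obtain ⟨c, hc, hcm, hcl⟩ := exists_orth (l : E3) (m : E3)
  let c' : S2 := ⟨c, mem_sphere_zero_iff_norm.2 hc⟩
  refine ⟨mk c', ?_, chart c m l hc hm hl hcm hcl ha, ?_, ?_, ?_, ?_⟩
  · ext y
    obtain ⟨p, rfl⟩ := mk_surjective y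
    simp only [mem_inter_iff, mem_singleton_iff]
    constructor
    · rintro ⟨h1, h2⟩
      rw [mk_mem_straight] at h1 h2
      apply eq_smul_mk (r := (inner ℝ (p : E3) c : ℝ))
      apply triL_injective hc hm hl hcm hcl ha
      have hcc : inner ℝ c c = (1 : ℝ) := by rw [real_inner_self_eq_norm_sq, hc]; norm_num
      simp only [triL, LinearMap.coe_mk, AddHom.coe_mk, inner_smul_left, conj_trivial, h1, h2]
      change _ = ((inner ℝ (p : E3) c * inner ℝ c c : ℝ), (inner ℝ (p : E3) c * inner ℝ c m : ℝ),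
        (inner ℝ (p : E3) c * inner ℝ c l : ℝ))
      rw [hcc, hcm, hcl, mul_one, mul_zero]
    · intro h1
      rw [h1]
      exact ⟨mk_mem_straight.2 hcl, mk_mem_straight.2 hcm⟩
  · refine mem_image_of_mem _ ?_
    change inner ℝ c c ≠ (0 : ℝ)
    rw [real_inner_self_eq_norm_sq, hc]
    norm_num
  · change aff c m l (mk c') = (0, 0)
    rw [aff_mk]
    change ((inner ℝ c m / inner ℝ c c : ℝ), (inner ℝ c l / inner ℝ c c : ℝ)) = (0, 0)
    rw [hcm, hcl, zero_div]
  · rintro _ ⟨p, hp, rfl⟩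
    rw [mem_ofPred_eq] at hp
    change mk p ∈ straight l ↔ (aff c m l (mk p)).2 = 0
    rw [mk_mem_straight, aff_mk]
    simp [hp]
  · rintro _ ⟨p, hp, rfl⟩
    rw [mem_ofPred_eq] at hp
    change mk p ∈ straight m ↔ (aff c m l (mk p)).1 = 0
    rw [mk_mem_straight, aff_mk]
    simp [hp]

end Pool.Agent.Helper7.TP
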