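import Pool.Agent.Helper7.TP.Plane
import Pool.Agent.Helper7.TP.Recur
import Pool.Agent.Helper7.TP.Straight
import Pool.Agent.Helper7.TP.Example

/-! # Project TP: assembly -/

set_option autoImplicit false

namespace Pool.Agent.Helper7.TP

open Metric Set Topology

theorem present_sparse {K : S2 → S2 → ℝ} (hK : IsKer (1 / 16) K) (hs : Sparse K)
    {𝒜 : Set (Set P2)} (hf : 𝒜.Finite) (h𝒜 : Present 𝒜 (plane K)) (ℬ : Set (Set P2))
    (hℬ : ℬ ⊆ 𝒜) (W : Finset P2) :
    ∑ x ∈ W, {C ∈ ℬ | x ∈ C}.ncard ≤ 2 * W.card + 2 * ℬ.ncard := by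
  classical
  obtain ⟨𝒞, h𝒞, -, h, hh⟩ := h𝒜
  have hℬf : ℬ.Finite := hf.subset hℬ
  set B : Finset (Set P2) := hℬf.toFinset with hB
  -- indices of the lines and points
  have hl : ∀ C ∈ ℬ, ∃ l : S2, h '' C = line K l := by
    intro C hC
    have h1 : h '' C ∈ 𝒞 := by
      rw [← hh]
      exact ⟨C, hℬ hC, rfl⟩
    obtain ⟨l, hl⟩ := h𝒞 h1
    exact ⟨l, hl.symm⟩
  choose f hf' using hl
  have hp : ∀ x : P2, ∃ p : S2, mk p = h x := fun x => mk_surjective _
  choose g hg using hp
  let eW := W.equivFin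
  let eB := B.equivFin
  let P : Fin W.card → S2 := fun v => g (eW.symm v : P2)
  let M : Fin B.card → S2 := fun i => f (eB.symm i : Set P2) (hℬf.mem_toFinset.1 (eB.symm i).2)
  let inc : Finset (Fin W.card × Fin B.card) :=
    Finset.univ.filter fun z => (eW.symm z.1 : P2) ∈ (eB.symm z.2 : Set P2)
  have hsys : HasSystem K inc P M := by
    refine ⟨?_, ?_, ?_⟩
    · intro v w hvw
      have h1 : h (eW.symm v : P2) = h (eW.symm w : P2) := by
        rw [← hg, ← hg]
        exact hvw
      exact eW.symm.injective (Subtype.ext (h.injective h1))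
    · intro i j hij
      have h1 : h '' (eB.symm i : Set P2) = h '' (eB.symm j : Set P2) := by
        rw [hf' _ (hℬf.mem_toFinset.1 (eB.symm i).2), hf' _ (hℬf.mem_toFinset.1 (eB.symm j).2)]
        exact line_eq_of_mk_eq hK hij
      exact eB.symm.injective (Subtype.ext (h.injective.image_injective h1))
    · intro z hz
      rw [Finset.mem_filter] at hz
      have h1 : mk (P z.1) ∈ line K (M z.2) := by
        rw [← hf' _ (hℬf.mem_toFinset.1 (eB.symm z.2).2)]
        exact ⟨_, hz.2, (hg _).symm⟩
      exact (mem_line hK).1 h1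
  have h1 := hs _ _ inc P M hsys
  have h2 : B.card = ℬ.ncard := (Set.ncard_eq_toFinset_card ℬ hℬf).symm
  have h3 : inc.card = ∑ x ∈ W, {C ∈ ℬ | x ∈ C}.ncard := by
    have h4 : inc.card = ∑ v : Fin W.card, (Finset.univ.filter fun i : Fin B.card =>
        (eW.symm v : P2) ∈ (eB.symm i : Set P2)).card := by
      rw [Finset.card_filter, Fintype.sum_prod_type]
      exact Finset.sum_congr rfl fun v _ => (Finset.card_filter _ _).symm
    rw [h4, ← Finset.sum_coe_sort W fun x => {C ∈ ℬ | x ∈ C}.ncard]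
    refine Fintype.sum_equiv eW.symm _ _ fun v => ?_
    have h5 : {C ∈ ℬ | (eW.symm v : P2) ∈ C} =
        ((Finset.univ.filter fun i : Fin B.card => (eW.symm v : P2) ∈ (eB.symm i : Set P2)).image
          fun i => (eB.symm i : Set P2) : Finset (Set P2)) := by
      ext C
      simp only [mem_ofPred_eq, Finset.coe_image, Finset.coe_filter, Finset.mem_univ, true_and,
        Set.mem_image]
      constructor
      · rintro ⟨hC, hx⟩
        refine ⟨eB ⟨C, hℬf.mem_toFinset.2 hC⟩, ?_, ?_⟩
        · rw [Equiv.symm_apply_apply]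
          exact hx
        · rw [Equiv.symm_apply_apply]
      · rintro ⟨i, hi, rfl⟩
        exact ⟨hℬf.mem_toFinset.1 (eB.symm i).2, hi⟩
    rw [h5, Set.ncard_coe_finset, Finset.card_image_of_injective]
    exact Subtype.val_injective.comp eB.symm.injective
  rw [h3, h2] at h1
  exact h1

/-- Fifteen straight lines which are an arrangement that violates the sparsity. -/
theorem exists_dense : ∃ ℓ : Fin 15 → S2, IsArrangement (range fun i => straight (ℓ i)) ∧
    (range fun i => straight (ℓ i)).ncard = 15 ∧ ∃ W : Finset P2,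
      2 * W.card + 2 * (range fun i => straight (ℓ i)).ncard <
        ∑ x ∈ W, {C ∈ range fun i => straight (ℓ i) | x ∈ C}.ncard := by
  classical
  obtain ⟨P, M, inc, hinc, hP, hM, hz⟩ := exists_example
  have hinj : Function.Injective fun i => straight (M i) := by
    intro i j hij
    by_contra hne
    obtain ⟨x, hx, -⟩ := straight_cross (l := M i) (m := M j) fun h => hne (hM _ _ h)
    have h1 : straight (M i) = {x} := by
      rw [← hx]
      have hij' : straight (M i) = straight (M j) := hij
      rw [← hij', inter_self]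
    obtain ⟨⟨γ, -, hγ1, hγ2⟩, -⟩ := straight_isPseudoline (M i)
    rw [h1] at hγ2
    have h2 : γ 1 = γ (-1) := by
      have h3 : γ 1 ∈ range γ := ⟨_, rfl⟩
      have h4 : γ (-1) ∈ range γ := ⟨_, rfl⟩
      rw [hγ2] at h3 h4
      rw [mem_singleton_iff.1 h3, mem_singleton_iff.1 h4]
    have h3 := hγ1 h2
    have h4 := congrArg (fun z : Circle => (z : ℂ)) h3
    norm_num at h4
  have hcard : (range fun i => straight (M i)).ncard = 15 := by
    rw [← Set.image_univ, Set.ncard_image_of_injective _ hinj, Set.ncard_univ, Nat.card_fin]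
  refine ⟨M, ⟨finite_range _, by rw [hcard]; norm_num, ?_, ?_⟩, hcard, ?_⟩
  · rintro _ ⟨i, rfl⟩
    exact straight_isPseudoline _
  · rintro _ ⟨i, rfl⟩ _ ⟨j, rfl⟩ hij
    exact straight_cross fun h => hij (by rw [hM _ _ h])
  · refine ⟨Finset.univ.image fun v => mk (P v), ?_⟩
    rw [hcard, Finset.sum_image fun v _ w _ h => hP v w h,
      Finset.card_image_of_injective _ fun v w h => hP v w h, Finset.card_univ, Fintype.card_fin]
    have h1 : ∀ v : Fin 22, (Finset.univ.filter fun i : Fin 15 => (v, i) ∈ inc).card ≤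
        {C ∈ range fun i => straight (M i) | mk (P v) ∈ C}.ncard := by
      intro v
      have h2 : ((Finset.univ.filter fun i : Fin 15 => (v, i) ∈ inc).image
          fun i => straight (M i) : Finset (Set P2)).card =
          (Finset.univ.filter fun i : Fin 15 => (v, i) ∈ inc).card :=
        Finset.card_image_of_injective _ hinj
      rw [← h2, ← Set.ncard_coe_finset]
      refine Set.ncard_le_ncard ?_ ((finite_range _).subset (sep_subset _ _))
      intro C hC
      rw [Finset.coe_image] at hC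
      obtain ⟨i, hi, rfl⟩ := hC
      rw [Finset.mem_coe, Finset.mem_filter] at hi
      exact ⟨⟨i, rfl⟩, ⟨P v, rfl, hz _ hi.2⟩⟩
    have h3 : inc.card = ∑ v : Fin 22, (Finset.univ.filter fun i : Fin 15 => (v, i) ∈ inc).card := by
      have h4 : inc = Finset.univ.filter fun z : Fin 22 × Fin 15 => z ∈ inc := by
        ext z
        simp
      conv_lhs => rw [h4]
      rw [Finset.card_filter, Fintype.sum_prod_type]
      exact Finset.sum_congr rfl fun v _ => (Finset.card_filter _ _).symm
    have h5 : inc.card ≤ ∑ v : Fin 22, {C ∈ range fun i => straight (M i) | mk (P v) ∈ C}.ncard := by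
      rw [h3]
      exact Finset.sum_le_sum fun v _ => h1 v
    rw [hinc] at h5
    omega

/-- There is a topological projective plane such that every arrangement which is present in it is
sparse; some arrangement of fifteen straight lines is not present in it. -/
theorem main : ∃ 𝓛 : Set (Set P2), IsTPP 𝓛 ∧
    (∀ 𝒜, IsArrangement 𝒜 → Present 𝒜 𝓛 → ∀ ℬ ⊆ 𝒜, ∀ W : Finset P2,
      ∑ x ∈ W, {C ∈ ℬ | x ∈ C}.ncard ≤ 2 * W.card + 2 * ℬ.ncard) ∧
    ∃ ℓ : Fin 15 → S2, IsArrangement (range fun i => straight (ℓ i)) ∧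
      (range fun i => straight (ℓ i)).ncard = 15 ∧
      ¬ Present (range fun i => straight (ℓ i)) 𝓛 := by
  obtain ⟨K, hK, hs⟩ := exists_sparse
  refine ⟨plane K, isTPP_plane hK, fun 𝒜 h𝒜 hp ℬ hℬ W => present_sparse hK hs h𝒜.finite hp ℬ hℬ W,
    ?_⟩
  obtain ⟨ℓ, h1, h2, W, h3⟩ := exists_dense
  refine ⟨ℓ, h1, h2, fun hp => ?_⟩
  exact absurd (present_sparse hK hs h1.finite hp _ subset_rfl W) (not_le.2 h3)

end Pool.Agent.Helper7.TP
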