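import Pool.Agent.Helper7.TP.Top

/-! # Project TP, module C: meridians -/

set_option autoImplicit false

namespace Pool.Agent.Helper7.TP

open Metric Set Topology Filter

theorem continuous_H {ε : ℝ} {K : S2 → S2 → ℝ} (hK : IsKer ε K) :
    Continuous fun z : S2 × S2 => H K z.1 z.2 := by
  unfold H
  refine Continuous.add (by fun_prop) ?_
  rw [continuous_iff_continuousAt]
  rintro ⟨p, l⟩
  rw [ContinuousAt, tendsto_iff_norm_sub_tendsto_zero]
  have h1 : Tendsto (fun z : S2 × S2 => ε * ‖(z.1 : E3) - p‖ + ε * ‖(z.2 : E3) - l‖)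
      (𝓝 (p, l)) (𝓝 0) := by
    have hc : Continuous (fun z : S2 × S2 => ε * ‖(z.1 : E3) - p‖ + ε * ‖(z.2 : E3) - l‖) := by
      fun_prop
    have := hc.tendsto (p, l)
    simpa using this
  refine squeeze_zero (fun _ => norm_nonneg _) ?_ h1
  rintro ⟨q, m⟩
  calc ‖K q m - K p l‖ ≤ |K q m - K p m| + |K p m - K p l| := abs_sub_le _ _ _
    _ ≤ _ := add_le_add (hK.lip_left q p m) (hK.lip_right p m l)

theorem continuous_mer (u l : S2) (h : inner ℝ (u : E3) (l : E3) = 0) : Continuous (mer u l h) := by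
  unfold mer
  exact Continuous.subtype_mk (by fun_prop) _

theorem mer_top (u l : S2) (h : inner ℝ (u : E3) (l : E3) = 0) : mer u l h (Real.pi / 2) = l := by
  apply Subtype.ext
  simp [mer]

private theorem norm_S2 (p : S2) : ‖(p : E3)‖ = 1 := norm_eq_of_mem_sphere p

private theorem inner_mer (u l : S2) (h : inner ℝ (u : E3) (l : E3) = 0) (θ : ℝ) :
    inner ℝ (mer u l h θ : E3) (l : E3) = Real.sin θ := by
  unfold mer
  simp only
  rw [inner_add_left, inner_smul_left, inner_smul_left, h, real_inner_self_eq_norm_sq, norm_S2]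
  simp

private theorem norm_mer_sub (u l : S2) (h : inner ℝ (u : E3) (l : E3) = 0) (a b : ℝ) :
    ‖(mer u l h a : E3) - mer u l h b‖ ≤ |a - b| := by
  apply abs_le_of_sq_le_sq' _ (abs_nonneg _) |>.2
  have h1 : (mer u l h a : E3) - mer u l h b =
      (Real.cos a - Real.cos b) • (u : E3) + (Real.sin a - Real.sin b) • (l : E3) := by
    unfold mer
    simp only
    rw [sub_smul, sub_smul]
    abel
  rw [h1, norm_add_sq_real, norm_smul, norm_smul, norm_S2, norm_S2, inner_smul_left,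
    inner_smul_right, h, sq_abs]
  simp only [Real.norm_eq_abs, mul_one, sq_abs, mul_zero, add_zero]
  have h2 := Real.one_sub_sq_div_two_le_cos (x := a - b)
  rw [Real.cos_sub] at h2
  nlinarith [Real.cos_sq_add_sin_sq a, Real.cos_sq_add_sin_sq b]

private theorem sin_diff {a b : ℝ} (hb : -(Real.pi / 4) ≤ b) (hab : b < a)
    (ha : a ≤ Real.pi / 4) : (a - b) / 4 ≤ Real.sin a - Real.sin b := by
  rw [Real.sin_sub_sin]
  have hpi := Real.pi_le_four
  have hpi3 : Real.pi < 3.15 := Real.pi_lt_d2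
  have hpos := Real.pi_pos
  have h1 : 2 / Real.pi * ((a - b) / 2) ≤ Real.sin ((a - b) / 2) :=
    Real.mul_le_sin (by linarith) (by linarith)
  have h2 : 1 / 2 * ((a - b) / 2) ≤ 2 / Real.pi * ((a - b) / 2) := by
    apply mul_le_mul_of_nonneg_right _ (by linarith)
    rw [div_le_div_iff₀ (by norm_num) hpos]
    linarith
  have h3 : (1 : ℝ) / 2 ≤ Real.cos ((a + b) / 2) := by
    have h4 := Real.one_sub_sq_div_two_le_cos (x := (a + b) / 2)
    have h5 : ((a + b) / 2) ^ 2 ≤ 1 := by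
      have : |(a + b) / 2| ≤ 1 := by
        rw [abs_le]
        constructor <;> linarith
      rw [← sq_abs]
      exact pow_le_one₀ (abs_nonneg _) this
    linarith
  nlinarith [mul_le_mul (h2.trans h1) h3 (by norm_num) (le_trans (by linarith) (h2.trans h1))]

private theorem sin_big {θ : ℝ} (h1 : Real.pi / 4 ≤ θ) (h2 : θ ≤ Real.pi / 2) :
    1 / 2 ≤ Real.sin θ := by
  have hpos := Real.pi_pos
  have h3 : 2 / Real.pi * θ ≤ Real.sin θ := Real.mul_le_sin (by linarith) h2
  have h4 : 1 / 2 ≤ 2 / Real.pi * θ := by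
    rw [div_mul_eq_mul_div, div_le_div_iff₀ (by norm_num) hpos]
    linarith
  linarith

/-- On every meridian around `l` the incidence function changes its sign exactly once. -/
theorem mer_zero {K : S2 → S2 → ℝ} (hK : IsKer (1 / 16) K) (u l : S2)
    (h : inner ℝ (u : E3) (l : E3) = 0) :
    ∃ θ₀ : ℝ, -(Real.pi / 4) ≤ θ₀ ∧ θ₀ ≤ Real.pi / 4 ∧ H K (mer u l h θ₀) l = 0 ∧
      (∀ θ, θ₀ < θ → θ ≤ Real.pi / 2 → 0 < H K (mer u l h θ) l) ∧
      ∀ θ, -(Real.pi / 2) ≤ θ → θ < θ₀ → H K (mer u l h θ) l < 0 := by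
  have hpos := Real.pi_pos
  have hg : ∀ θ, H K (mer u l h θ) l = Real.sin θ + K (mer u l h θ) l := by
    intro θ
    unfold H
    rw [inner_mer]
  have hmono : ∀ a b, -(Real.pi / 4) ≤ b → b < a → a ≤ Real.pi / 4 →
      H K (mer u l h b) l < H K (mer u l h a) l := by
    intro a b hb hab ha
    rw [hg, hg]
    have h1 := sin_diff hb hab ha
    have h2 := (hK.lip_left (mer u l h a) (mer u l h b) l).trans
      (mul_le_mul_of_nonneg_left (norm_mer_sub u l h a b) (by norm_num))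
    rw [abs_of_pos (sub_pos.2 hab)] at h2
    have h3 := (abs_le.1 h2).1
    linarith
  have hbig : ∀ θ, Real.pi / 4 ≤ θ → θ ≤ Real.pi / 2 → 0 < H K (mer u l h θ) l := by
    intro θ h1 h2
    rw [hg]
    have h3 := sin_big h1 h2
    have h4 := (abs_le.1 (hK.small (mer u l h θ) l)).1
    linarith
  have hsmall : ∀ θ, -(Real.pi / 2) ≤ θ → θ ≤ -(Real.pi / 4) → H K (mer u l h θ) l < 0 := by
    intro θ h1 h2
    rw [hg]
    have h3 := sin_big (θ := -θ) (by linarith) (by linarith)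
    rw [Real.sin_neg] at h3
    have h4 := (abs_le.1 (hK.small (mer u l h θ) l)).2
    linarith
  have hcont : Continuous fun θ => H K (mer u l h θ) l :=
    (continuous_H hK).comp ((continuous_mer u l h).prodMk continuous_const)
  obtain ⟨θ₀, hθ₀, h0⟩ := intermediate_value_Icc (a := -(Real.pi / 4)) (b := Real.pi / 4)
    (by linarith) hcont.continuousOn (show (0 : ℝ) ∈ _ from
      ⟨(hsmall _ (by linarith) le_rfl).le, (hbig _ le_rfl (by linarith)).le⟩)
  simp only at h0
  refine ⟨θ₀, hθ₀.1, hθ₀.2, h0, ?_, ?_⟩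
  · intro θ h1 h2
    by_cases h3 : θ ≤ Real.pi / 4
    · rw [← h0]
      exact hmono θ θ₀ hθ₀.1 h1 h3
    · exact hbig θ (le_of_not_ge h3) h2
  · intro θ h1 h2
    by_cases h3 : -(Real.pi / 4) ≤ θ
    · rw [← h0]
      exact hmono θ₀ θ h3 h2 hθ₀.2
    · exact hsmall θ h1 (le_of_not_ge h3)

private theorem exists_orth (l : S2) : ∃ u : S2, inner ℝ (u : E3) (l : E3) = 0 := by
  have h1 : Module.finrank ℝ (ℝ ∙ (l : E3))ᗮ = 2 := by
    have : Fact (Module.finrank ℝ E3 = 2 + 1) := ⟨by simp⟩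
    exact Submodule.finrank_orthogonal_span_singleton (n := 2) (by
      intro h0
      have := norm_S2 l
      rw [h0, norm_zero] at this
      exact zero_ne_one this)
  have : Nontrivial (ℝ ∙ (l : E3))ᗮ := Module.nontrivial_of_finrank_pos (R := ℝ) (by omega)
  obtain ⟨w, hw⟩ := exists_ne (0 : (ℝ ∙ (l : E3))ᗮ)
  have hw0 : (w : E3) ≠ 0 := fun h0 => hw (Subtype.ext h0)
  have hw1 : inner ℝ (l : E3) (w : E3) = 0 :=
    (Submodule.mem_orthogonal_singleton_iff_inner_right.1 w.2)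
  refine ⟨⟨‖(w : E3)‖⁻¹ • (w : E3), ?_⟩, ?_⟩
  · rw [mem_sphere_zero_iff_norm, norm_smul, norm_inv, norm_norm]
    exact inv_mul_cancel₀ (norm_ne_zero_iff.2 hw0)
  · simp only
    rw [inner_smul_left, real_inner_comm, hw1]
    simp

theorem exists_mer (l p : S2) : ∃ (u : S2) (h : inner ℝ (u : E3) (l : E3) = 0) (θ : ℝ),
    -(Real.pi / 2) ≤ θ ∧ θ ≤ Real.pi / 2 ∧ mer u l h θ = p := by
  set x : ℝ := inner ℝ (p : E3) (l : E3) with hx
  set w : E3 := (p : E3) - x • (l : E3) with hw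
  have hwl : inner ℝ w (l : E3) = 0 := by
    rw [hw, inner_sub_left, inner_smul_left, real_inner_self_eq_norm_sq, norm_S2, ← hx]
    simp
  have hwn : ‖w‖ ^ 2 = 1 - x ^ 2 := by
    rw [hw, norm_sub_sq_real, norm_smul, norm_S2, norm_S2, inner_smul_right, ← hx]
    simp only [Real.norm_eq_abs, mul_one, sq_abs]
    ring
  have hx1 : |x| ≤ 1 := by
    have := abs_real_inner_le_norm (p : E3) (l : E3)
    rw [norm_S2, norm_S2, mul_one] at this
    exact this
  have hu : ∃ u : S2, inner ℝ (u : E3) (l : E3) = 0 ∧ w = ‖w‖ • (u : E3) := by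
    by_cases h0 : w = 0
    · obtain ⟨u, hu⟩ := exists_orth l
      refine ⟨u, hu, ?_⟩
      rw [h0]
      simp
    · have h1 : ‖w‖ ≠ 0 := norm_ne_zero_iff.2 h0
      refine ⟨⟨‖w‖⁻¹ • w, ?_⟩, ?_, ?_⟩
      · rw [mem_sphere_zero_iff_norm, norm_smul, norm_inv, norm_norm]
        exact inv_mul_cancel₀ h1
      · simp only
        rw [inner_smul_left, hwl]
        simp
      · simp only
        rw [smul_smul, mul_inv_cancel₀ h1, one_smul]
  obtain ⟨u, h, hwu⟩ := hu
  refine ⟨u, h, Real.arcsin x, Real.neg_pi_div_two_le_arcsin x, Real.arcsin_le_pi_div_two x, ?_⟩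
  apply Subtype.ext
  unfold mer
  simp only
  rw [Real.cos_arcsin, Real.sin_arcsin (abs_le.1 hx1).1 (abs_le.1 hx1).2, ← hwn,
    Real.sqrt_sq (norm_nonneg _), ← hwu, hw]
  abel

end Pool.Agent.Helper7.TP
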