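import Pool.Agent.Helper7.LinAlg
import Pool.Agent.Helper7.TP.Alg

/-! # Project TP, module M: linear equations with algebraically independent solutions -/

set_option autoImplicit false

namespace Pool.Agent.Helper7.TP

private theorem alg_int (k : Type) [Field k] [Algebra k ℝ] {S : Set ℝ} (z : ℤ) :
    Alg k S (z : ℝ) := by
  have h := Alg.algebraMap k (S := S) (z : k)
  rwa [map_intCast] at h

private theorem alg_det (k : Type) [Field k] [Algebra k ℝ] {S : Set ℝ} {N : ℕ}
    (A : Matrix (Fin N) (Fin N) ℝ) (h : ∀ i j, Alg k S (A i j)) : Alg k S A.det := by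
  rw [Matrix.det_apply']
  exact Alg.sum k _ _ fun σ _ => Alg.mul k (alg_int k _) (Alg.prod k _ _ fun i _ => h _ _)

private theorem alg_adj (k : Type) [Field k] [Algebra k ℝ] {S : Set ℝ} {N : ℕ}
    (A : Matrix (Fin N) (Fin N) ℝ) (h : ∀ i j, Alg k S (A i j)) (i j : Fin N) :
    Alg k S (A.adjugate i j) := by
  rw [Matrix.adjugate_apply]
  refine alg_det k _ fun a b => ?_
  rw [Matrix.updateRow_apply]
  split_ifs with h1
  · rw [Pi.single_apply]
    split_ifs
    · simpa using alg_int k (S := S) 1
    · simpa using alg_int k (S := S) 0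
  · exact h a b

theorem no_solution {k : Type} [Field k] [Algebra k ℝ] {J : Type} [Fintype J] {c : J → ℝ}
    (hc : AlgebraicIndependent k c) {N : ℕ} (e : Fin N → J → ℝ) (he : LinearIndependent ℝ e)
    {S : Set ℝ} (hS : S.Finite) (h1 : ∀ r j, Alg k S (e r j))
    (h2 : ∀ r, Alg k S (∑ j, c j * e r j)) : N ≤ S.ncard := by
  classical
  have hrank : (Matrix.of e).rank = N := by
    have h := LinearIndependent.rank_matrix (M := Matrix.of e) he
    rwa [Fintype.card_fin] at h
  obtain ⟨f, g, hdet⟩ := exists_minor (Matrix.of e) N hrank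
  have hg : Function.Injective g := by
    intro a b hab
    by_contra hne
    exact hdet (Matrix.det_zero_of_column_eq hne fun r => by
      simp only [Matrix.submatrix_apply, hab])
  obtain ⟨S', hS'⟩ : ∃ S' : Set ℝ, S' = S ∪ c '' (Set.range g)ᶜ := ⟨_, rfl⟩
  have hSS : S ⊆ S' := hS' ▸ Set.subset_union_left
  have hcompl : ∀ j, j ∉ Set.range g → Alg k S' (c j) := fun j hj =>
    Alg.of_mem k (hS' ▸ Or.inr ⟨j, hj, rfl⟩)
  obtain ⟨A, hA⟩ : ∃ A : Matrix (Fin N) (Fin N) ℝ, A = (Matrix.of e).submatrix f g := ⟨_, rfl⟩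
  have hAe : ∀ i j, A i j = e (f i) (g j) := fun i j => by rw [hA]; rfl
  have hAalg : ∀ i j, Alg k S' (A i j) := fun i j => by
    rw [hAe]; exact Alg.mono k hSS (h1 _ _)
  have hsplit : ∀ r, ∑ s, A r s * c (g s) =
      (∑ j, c j * e (f r) j) + -∑ j ∈ Finset.univ.filter (fun j => j ∉ Set.range g),
        c j * e (f r) j := by
    intro r
    have h3 := Finset.sum_filter_add_sum_filter_not Finset.univ (fun j => j ∈ Set.range g)
      (fun j => c j * e (f r) j)
    have h4 : ∑ j ∈ Finset.univ.filter (fun j => j ∈ Set.range g), c j * e (f r) j =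
        ∑ s, A r s * c (g s) := by
      have h5 : Finset.univ.filter (fun j => j ∈ Set.range g) = Finset.univ.image g := by
        ext j
        simp
      rw [h5, Finset.sum_image (fun a _ b _ hab => hg hab)]
      exact Finset.sum_congr rfl fun s _ => by rw [hAe]; ring
    rw [h4] at h3
    linarith
  have hb : ∀ r, Alg k S' (∑ s, A r s * c (g s)) := by
    intro r
    rw [hsplit]
    refine Alg.add k (Alg.mono k hSS (h2 _)) (Alg.neg k (Alg.sum k _ _ fun j hj => ?_))
    rw [Finset.mem_filter] at hj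
    exact Alg.mul k (hcompl j hj.2) (Alg.mono k hSS (h1 _ _))
  have hx : ∀ s, Alg k S' (c (g s)) := by
    intro s
    have h6 : A.det * c (g s) = ∑ r, A.adjugate s r * ∑ s, A r s * c (g s) := by
      have h7 : (A.adjugate * A).mulVec (fun s => c (g s)) = A.det • (fun s => c (g s)) := by
        rw [Matrix.adjugate_mul, Matrix.smul_mulVec, Matrix.one_mulVec]
      have h8 := congrFun h7 s
      rw [← Matrix.mulVec_mulVec] at h8
      simp only [Matrix.mulVec, dotProduct, Pi.smul_apply, smul_eq_mul] at h8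
      exact h8.symm
    have h9 : c (g s) = (A.det)⁻¹ * ∑ r, A.adjugate s r * ∑ s, A r s * c (g s) := by
      rw [← h6, ← mul_assoc, inv_mul_cancel₀ (by rw [hA]; exact hdet), one_mul]
    rw [h9]
    exact Alg.mul k (Alg.inv k (alg_det k A hAalg))
      (Alg.sum k _ _ fun r _ => Alg.mul k (alg_adj k A hAalg s r) (hb r))
  have hall : ∀ j, Alg k S' (c j) := by
    intro j
    by_cases hj : j ∈ Set.range g
    · obtain ⟨s, rfl⟩ := hj
      exact hx s
    · exact hcompl j hj
  have hfin : (Set.range g)ᶜ.Finite := Set.toFinite _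
  have hcard := card_le_of_alg k hc (hS' ▸ hS.union (hfin.image c)) hall
  have h10 : S'.ncard ≤ S.ncard + (Set.range g)ᶜ.ncard := by
    rw [hS']
    exact (Set.ncard_union_le _ _).trans (Nat.add_le_add_left (Set.ncard_image_le hfin) _)
  have h11 : (Set.range g).ncard + (Set.range g)ᶜ.ncard = Fintype.card J := by
    rw [Set.ncard_add_ncard_compl, Nat.card_eq_fintype_card]
  have h12 : (Set.range g).ncard = N := by
    rw [← Set.image_univ, Set.ncard_image_of_injective _ hg, Set.ncard_univ, Nat.card_fin]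
  omega

end Pool.Agent.Helper7.TP
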