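import Pool.Agent.Helper7.TP.EvIndep
import Pool.Agent.Helper7.TP.NoSol
import Pool.Agent.Helper7.TP.Coord

/-! # Project TP, module O: no dense incidence system -/

set_option autoImplicit false

namespace Pool.Agent.Helper7.TP

open Metric Set Topology

/-- The values of the kernel `K` are algebraic over `k` and the coordinates of the arguments. -/
def AlgKer (k : Type) [Field k] [Algebra k ℝ] (K : S2 → S2 → ℝ) : Prop :=
  ∀ (S : Set ℝ) (p l : S2), (∀ i, Alg k S ((p : E3) i)) → (∀ i, Alg k S ((l : E3) i)) →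
    Alg k S (K p l)

theorem card_inc_le {k : Type} [Field k] [Algebra k ℝ] {K : S2 → S2 → ℝ} (hK : AlgKer k K)
    {D : ℕ} {c : Idx D → ℝ} (hc : AlgebraicIndependent k c) {V L : ℕ}
    (inc : Finset (Fin V × Fin L)) (hD : inc.card ≤ D) (P : Fin V → S2) (M : Fin L → S2)
    (h : HasSystem (fun p l => K p l + KP c p l) inc P M) : inc.card ≤ 2 * V + 2 * L := by
  obtain ⟨S1, hS1, hn1, hP⟩ := exists_params k P
  obtain ⟨S2', hS2, hn2, hM⟩ := exists_params k M
  obtain ⟨hv, hl, hinc⟩ := h
  have hP' : ∀ v i, Alg k (S1 ∪ S2') ((P v : E3) i) := fun v i =>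
    Alg.mono k subset_union_left (hP v i)
  have hM' : ∀ v i, Alg k (S1 ∪ S2') ((M v : E3) i) := fun v i =>
    Alg.mono k subset_union_right (hM v i)
  have hind := mon_indep (D := D) hD (fun r => P (inc.equivFin.symm r).1.1)
    (fun r => M (inc.equivFin.symm r).1.2) (by
      intro r s h1 h2
      apply inc.equivFin.symm.injective
      apply Subtype.ext
      exact Prod.ext (hv _ _ h1) (hl _ _ h2))
  have h3 := no_solution hc (fun (r : Fin inc.card) (j : Idx D) =>
    mon j (P (inc.equivFin.symm r).1.1) (M (inc.equivFin.symm r).1.2)) hind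
    (hS1.union hS2) (by
      intro r j
      exact Alg.mul k (Alg.prod k _ _ fun i _ => hP' _ _) (Alg.prod k _ _ fun i _ => hM' _ _)) (by
      intro r
      have h4 := hinc (inc.equivFin.symm r).1 (inc.equivFin.symm r).2
      unfold H at h4
      have h5 : ∑ j, c j * mon j (P (inc.equivFin.symm r).1.1) (M (inc.equivFin.symm r).1.2) =
          -((∑ i, (P (inc.equivFin.symm r).1.1 : E3) i * (M (inc.equivFin.symm r).1.2 : E3) i) +
            K (P (inc.equivFin.symm r).1.1) (M (inc.equivFin.symm r).1.2)) := by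
        have h6 : inner ℝ (P (inc.equivFin.symm r).1.1 : E3) (M (inc.equivFin.symm r).1.2 : E3) =
            ∑ i, (P (inc.equivFin.symm r).1.1 : E3) i * (M (inc.equivFin.symm r).1.2 : E3) i := by
          simp [PiLp.inner_apply, mul_comm]
        have h7 : KP c (P (inc.equivFin.symm r).1.1) (M (inc.equivFin.symm r).1.2) =
            ∑ j, c j * mon j (P (inc.equivFin.symm r).1.1) (M (inc.equivFin.symm r).1.2) := rfl
        rw [← h6, ← h7]
        linarith
      rw [h5]
      exact Alg.neg k (Alg.add k (Alg.sum k _ _ fun i _ => Alg.mul k (hP' _ _) (hM' _ _))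
        (hK _ _ _ (hP' _) (hM' _))))
  have h8 := Set.ncard_union_le S1 S2'
  omega

end Pool.Agent.Helper7.TP
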