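import Pool.Agent.Helper7.TP.Pseudo
import Pool.Agent.Helper7.TP.Join
import Pool.Agent.Helper7.TP.Hemi
import Pool.Agent.Helper7.TP.JoinCont

/-! # Project TP, module I: the topological projective plane of a small kernel -/

set_option autoImplicit false

namespace Pool.Agent.Helper7.TP

open Metric Set Topology

theorem mem_line {ε : ℝ} {K : S2 → S2 → ℝ} (hK : IsKer ε K) {p l : S2} :
    mk p ∈ line K l ↔ H K p l = 0 := by
  constructor
  · rintro ⟨q, hq, h⟩
    rcases mk_eq_mk.1 hq with h' | h'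
    · rw [h']
      exact h
    · rw [h', hK.H_neg_left, h, neg_zero]
  · intro h
    exact ⟨p, rfl, h⟩

theorem line_neg {ε : ℝ} {K : S2 → S2 → ℝ} (hK : IsKer ε K) (l : S2) :
    line K (-l) = line K l := by
  ext x
  obtain ⟨p, rfl⟩ := mk_surjective x
  rw [mem_line hK, mem_line hK, hK.H_neg_right, neg_eq_zero]

theorem line_eq_of_mk_eq {ε : ℝ} {K : S2 → S2 → ℝ} (hK : IsKer ε K) {l m : S2}
    (h : mk l = mk m) : line K l = line K m := by
  rcases mk_eq_mk.1 h with h | h
  · rw [h]
  · rw [h, line_neg hK]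

theorem isTPP_plane {K : S2 → S2 → ℝ} (hK : IsKer (1 / 16) K) : IsTPP (plane K) where
  pseudoline := by
    rintro _ ⟨l, rfl⟩
    exact line_isPseudoline hK l
  join := by
    intro x y hxy
    obtain ⟨p, rfl⟩ := mk_surjective x
    obtain ⟨q, rfl⟩ := mk_surjective y
    obtain ⟨l, h1, h2⟩ := exists_join hK p q
    refine ⟨line K l, ⟨⟨l, rfl⟩, (mem_line hK).2 h1, (mem_line hK).2 h2⟩, ?_⟩
    rintro _ ⟨⟨m, rfl⟩, h3, h4⟩
    rw [mem_line hK] at h3 h4
    rcases uniq hK h1 h2 h3 h4 with h | h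
    · exact absurd h hxy
    · exact (line_eq_of_mk_eq hK h).symm
  continuous := by
    intro x y hxy C hC hx hy U hU
    obtain ⟨p, rfl⟩ := mk_surjective x
    obtain ⟨q, rfl⟩ := mk_surjective y
    obtain ⟨l, rfl⟩ := hC
    rw [mem_line hK] at hx hy
    -- a property of the lines near `line K l` holds for the joins of the points near `p`, `q`
    have key : ∀ Q : Set P2 → Prop, (∀ᶠ m in 𝓝 l, Q (line K m)) →
        ∀ᶠ z : P2 × P2 in 𝓝 (mk p, mk q), ∀ D ∈ plane K, z.1 ∈ D → z.2 ∈ D → z.1 ≠ z.2 → Q D := by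
      intro Q hQ
      have h1 := join_cont hK hxy hx hy hQ
      have h2 : 𝓝 (mk p, mk q) = Filter.map (Prod.map mk mk) (𝓝 (p, q)) := by
        rw [nhds_prod_eq, nhds_prod_eq, nhds_mk, nhds_mk, Filter.prod_map_map_eq]
        rfl
      rw [h2, Filter.eventually_map]
      filter_upwards [h1] with z hz
      rintro _ ⟨m, rfl⟩ h3 h4 _
      have h5 : H K z.1 m = 0 := (mem_line hK).1 h3
      have h6 : H K z.2 m = 0 := (mem_line hK).1 h4
      rcases hz m h5 h6 with h | h
      · exact h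
      · have h7 : Q (line K (-m)) := h
        rwa [line_neg hK] at h7
    exact ⟨fun h => key _ (line_upper hK l hU h), fun h => key _ (line_lower hK l hU h)⟩

end Pool.Agent.Helper7.TP
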