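import Pool.Agent.Helper7.TP.Curve

/-! # Project TP, module E: the lines are pseudolines -/

set_option autoImplicit false

namespace Pool.Agent.Helper7.TP

open Metric Set Topology

private theorem pseudo_sq_surj : Function.Surjective fun z : Circle => z ^ 2 := by
  intro w
  refine ⟨Circle.exp (Complex.arg (w : ℂ) / 2), ?_⟩
  change Circle.exp (Complex.arg (w : ℂ) / 2) ^ 2 = w
  rw [pow_two, ← Circle.exp_add, add_halves, Circle.exp_arg]

private theorem pseudo_sq {z w : Circle} (h : z ^ 2 = w ^ 2) : w = z ∨ w = -z := by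
  have h1 : (w : ℂ) ^ 2 = (z : ℂ) ^ 2 := by
    rw [← Circle.coe_pow, ← Circle.coe_pow, h]
  rcases sq_eq_sq_iff_eq_or_eq_neg.1 h1 with h2 | h2
  · left
    exact Circle.ext h2
  · right
    apply Circle.ext
    rw [Circle.coe_neg]
    exact h2

theorem line_isPseudoline {K : S2 → S2 → ℝ} (hK : IsKer (1 / 16) K) (l : S2) :
    IsPseudoline (line K l) := by
  obtain ⟨c, hc, hinj, hrange, hneg⟩ := exists_curve hK l
  constructor
  · have hsq : Continuous fun z : Circle => z ^ 2 := continuous_pow 2
    have hq : IsQuotientMap fun z : Circle => z ^ 2 :=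
      IsClosedMap.isQuotientMap hsq.isClosedMap hsq pseudo_sq_surj
    have hf : Continuous fun z : Circle => mk (c z) := continuous_mk.comp hc
    have hff : ∀ z w : Circle, z ^ 2 = w ^ 2 → mk (c w) = mk (c z) := by
      intro z w h
      rcases pseudo_sq h with h | h
      · rw [h]
      · rw [h, hneg, mk_neg]
    let g : Circle → P2 := fun w => mk (c (Function.surjInv pseudo_sq_surj w))
    have hg : ∀ z : Circle, g (z ^ 2) = mk (c z) := by
      intro z
      apply hff
      exact (Function.surjInv_eq pseudo_sq_surj (z ^ 2)).symm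
    have hgc : Continuous g := by
      rw [hq.continuous_iff]
      exact hf.congr fun z => (hg z).symm
    refine ⟨g, hgc, ?_, ?_⟩
    · intro w₁ w₂ h
      obtain ⟨z₁, rfl⟩ := pseudo_sq_surj w₁
      obtain ⟨z₂, rfl⟩ := pseudo_sq_surj w₂
      have h' : g (z₁ ^ 2) = g (z₂ ^ 2) := h
      rw [hg, hg] at h'
      change z₁ ^ 2 = z₂ ^ 2
      rcases mk_eq_mk.1 h' with h1 | h1
      · rw [hinj h1]
      · rw [← hneg] at h1
        rw [hinj h1]
        apply Circle.ext
        rw [Circle.coe_pow, Circle.coe_pow, Circle.coe_neg, neg_sq]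
    · ext x
      constructor
      · rintro ⟨w, rfl⟩
        obtain ⟨z, rfl⟩ := pseudo_sq_surj w
        change g (z ^ 2) ∈ line K l
        rw [hg]
        have h1 : c z ∈ {p | H K p l = 0} := by
          rw [← hrange]
          exact mem_range_self z
        exact ⟨c z, rfl, h1⟩
      · rintro ⟨p, rfl, hp⟩
        have h1 : p ∈ range c := by
          rw [hrange]
          exact hp
        obtain ⟨z, rfl⟩ := h1
        exact ⟨z ^ 2, hg z⟩
  · have h1 : (line K l)ᶜ = mk '' {p | 0 < H K p l} := by
      ext x
      constructor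
      · intro hx
        obtain ⟨p, rfl⟩ := mk_surjective x
        rcases lt_trichotomy (H K p l) 0 with h | h | h
        · refine ⟨-p, ?_, mk_neg p⟩
          change 0 < H K (-p) l
          rw [hK.H_neg_left]
          linarith
        · exact absurd ⟨p, rfl, h⟩ hx
        · exact ⟨p, h, rfl⟩
      · rintro ⟨p, hp, rfl⟩ ⟨q, hq, hq0⟩
        change 0 < H K p l at hp
        rcases mk_eq_mk.1 hq with h | h
        · rw [h, hq0] at hp
          exact absurd hp (lt_irrefl _)
        · rw [h, hK.H_neg_left, hq0, neg_zero] at hp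
          exact absurd hp (lt_irrefl _)
    rw [h1]
    apply IsPreconnected.image _ _ continuous_mk.continuousOn
    apply isPreconnected_of_forall l
    intro p hp
    change 0 < H K p l at hp
    obtain ⟨u, hu, θ, h1, h2, hup⟩ := exists_mer l p
    obtain ⟨θ₀, g1, g2, g3, g4, g5⟩ := mer_zero hK u l hu
    have hθ : θ₀ < θ := by
      rcases lt_trichotomy θ θ₀ with h | h | h
      · have := g5 θ h1 h
        rw [hup] at this
        exact absurd this (not_lt.2 hp.le)
      · rw [← h, hup] at g3
        rw [g3] at hp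
        exact absurd hp (lt_irrefl _)
      · exact h
    refine ⟨mer u l hu '' Icc θ (Real.pi / 2), ?_, ⟨Real.pi / 2, ⟨h2, le_refl _⟩, mer_top u l hu⟩,
      ⟨θ, ⟨le_refl _, h2⟩, hup⟩, isPreconnected_Icc.image _ (continuous_mer u l hu).continuousOn⟩
    rintro _ ⟨t, ht, rfl⟩
    exact g4 t (hθ.trans_le ht.1) ht.2

end Pool.Agent.Helper7.TP
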