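import Mathlib

/-! # Project TP, module P: small algebraically independent real numbers -/

set_option autoImplicit false

namespace Pool.Agent.Helper7.TP

open Algebra in
private theorem countable_adjoin_range (k : Type) [Field k] [Countable k] [Algebra k ℝ] (J : Type)
    [Finite J] (c : J → ℝ) : Countable (Algebra.adjoin k (Set.range c)) := by
  have h1 : Countable (MvPolynomial J k) := by
    have h := MvPolynomial.cardinalMk_le_max (σ := J) (R := k)
    rw [← Cardinal.mk_le_aleph0_iff]
    refine h.trans ?_
    have hk : Cardinal.mk k ≤ Cardinal.aleph0 := Cardinal.mk_le_aleph0_iff.mpr inferInstance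
    have hJ : Cardinal.mk J ≤ Cardinal.aleph0 :=
      Cardinal.mk_le_aleph0_iff.mpr (Finite.to_countable)
    exact max_le (max_le hk hJ) le_rfl
  have h2 : Set.Countable ((Algebra.adjoin k (Set.range c) : Subalgebra k ℝ) : Set ℝ) := by
    rw [Algebra.adjoin_range_eq_range_aeval, AlgHom.coe_range]
    exact Set.countable_range _
  exact h2.to_subtype

theorem exists_small_indep (k : Type) [Field k] [Countable k] [Algebra k ℝ] (J : Type) [Finite J]
    {δ : ℝ} (hδ : 0 < δ) : ∃ c : J → ℝ, AlgebraicIndependent k c ∧ ∀ j, |c j| ≤ δ := by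
  induction J using Finite.induction_empty_option with
  | of_equiv e ih =>
    obtain ⟨c, hc, hs⟩ := ih
    exact ⟨c ∘ e.symm, hc.comp _ e.symm.injective, fun j => hs _⟩
  | h_empty =>
    refine ⟨fun j => j.elim, ?_, fun j => j.elim⟩
    rw [algebraicIndependent_empty_type_iff]
    exact (algebraMap k ℝ).injective
  | h_option ih =>
    rename_i α hα
    obtain ⟨c, hc, hs⟩ := ih
    have hcount : Countable (Algebra.adjoin k (Set.range c)) := countable_adjoin_range k α c
    have hS : Set.Countable {x : ℝ | IsAlgebraic (Algebra.adjoin k (Set.range c)) x} :=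
      Algebraic.countable _ _
    have hI : ¬ (Set.Ioo 0 δ ⊆ {x : ℝ | IsAlgebraic (Algebra.adjoin k (Set.range c)) x}) := by
      intro hsub
      have h1 : (Set.Ioo (0 : ℝ) δ).Countable := hS.mono hsub
      exact (Cardinal.Real.Ioo_countable_iff.mp h1).not_gt hδ
    obtain ⟨a, ha, hna⟩ := Set.not_subset.mp hI
    refine ⟨fun o => o.elim a c, (hc.option_iff_transcendental a).mpr hna, ?_⟩
    rintro (_ | j)
    · show |a| ≤ δ
      rw [abs_of_pos ha.1]
      exact ha.2.le
    · exact hs j

end Pool.Agent.Helper7.TP
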