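import Pool.Agent.Helper7.TP.NoConf
import Pool.Agent.Helper7.TP.Small
import Pool.Agent.Helper7.TP.KPoly

/-! # Project TP, module Q: one step of the construction of the kernel -/

set_option autoImplicit false

namespace Pool.Agent.Helper7.TP

open Metric Set Topology

/-- The kernel `K` is algebraic over some countable field. -/
def CtAlg (K : S2 → S2 → ℝ) : Prop := ∃ k : Subfield ℝ, Countable k ∧ AlgKer k K

theorem ctAlg_zero : CtAlg fun _ _ => 0 := by
  refine ⟨⊥, ?_, ?_⟩
  · have h : ((⊥ : Subfield ℝ) : Set ℝ).Countable := by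
      rw [Subfield.bot_eq_of_charZero]
      exact Set.countable_range _
    exact h.to_subtype
  · intro S p l _ _
    have h := Alg.algebraMap (⊥ : Subfield ℝ) (S := S) 0
    rwa [map_zero] at h

private theorem countable_closure {s : Set ℝ} (hs : s.Countable) :
    Countable (Subfield.closure s) := by
  have h1 := Subfield.cardinalMk_closure_le_max (s := s)
  have h2 : Cardinal.mk s ≤ Cardinal.aleph0 := by
    rw [Cardinal.mk_le_aleph0_iff]
    exact hs.to_subtype
  rw [← Cardinal.mk_le_aleph0_iff]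
  exact h1.trans (max_le h2 le_rfl)

theorem exists_step {K : S2 → S2 → ℝ} (hK : CtAlg K) {ε : ℝ} (hε : 0 < ε) {V L : ℕ}
    (inc : Finset (Fin V × Fin L)) (hinc : 2 * V + 2 * L < inc.card) :
    ∃ κ : S2 → S2 → ℝ, IsKer ε κ ∧ CtAlg (fun p l => K p l + κ p l) ∧
      ∀ P M, ¬ HasSystem (fun p l => K p l + κ p l) inc P M := by
  obtain ⟨k, hk, hKk⟩ := hK
  obtain ⟨D, hDdef⟩ : ∃ D, D = 2 * inc.card + 1 := ⟨_, rfl⟩
  have hDodd : Odd D := ⟨inc.card, hDdef⟩
  have hD0 : (0 : ℝ) < D := by
    have : 0 < D := by omega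
    exact_mod_cast this
  have hq : (0 : ℝ) < 9 ^ D * (D : ℝ) ^ 2 := by positivity
  obtain ⟨c, hc, hcs⟩ := exists_small_indep k (Idx D) (div_pos hε hq)
  have hker := isKer_KP hDodd hcs
  rw [mul_div_cancel₀ ε hq.ne'] at hker
  refine ⟨KP c, hker, ?_, ?_⟩
  · have hkc : ((k : Set ℝ) ∪ Set.range c).Countable :=
      (Set.countable_coe_iff.mp hk).union (Set.countable_range c)
    have hle : k ≤ Subfield.closure ((k : Set ℝ) ∪ Set.range c) := fun x hx =>
      Subfield.subset_closure (Or.inl hx)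
    refine ⟨Subfield.closure ((k : Set ℝ) ∪ Set.range c), countable_closure hkc, ?_⟩
    letI : Algebra k (Subfield.closure ((k : Set ℝ) ∪ Set.range c)) :=
      (Subfield.inclusion hle).toAlgebra
    haveI : IsScalarTower k (Subfield.closure ((k : Set ℝ) ∪ Set.range c)) ℝ :=
      IsScalarTower.of_algebraMap_eq (fun x => rfl)
    intro S p l hp hl
    refine Alg.add _ ?_ ?_
    · have h1 : Alg k (Set.range (fun i => (p : E3) i) ∪ Set.range (fun i => (l : E3) i))
          (K p l) :=
        hKk _ p l (fun i => Alg.of_mem k (Or.inl ⟨i, rfl⟩))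
          (fun i => Alg.of_mem k (Or.inr ⟨i, rfl⟩))
      refine Alg.trans _ ?_ (Alg.base k (k' := Subfield.closure ((k : Set ℝ) ∪ Set.range c)) h1)
      rintro z (⟨i, rfl⟩ | ⟨i, rfl⟩)
      · exact hp i
      · exact hl i
    · refine Alg.sum _ _ _ fun j _ => Alg.mul _ ?_ ?_
      · exact Alg.algebraMap (Subfield.closure ((k : Set ℝ) ∪ Set.range c))
          ⟨c j, Subfield.subset_closure (Or.inr ⟨j, rfl⟩)⟩
      · exact Alg.mul _ (Alg.prod _ _ _ fun i _ => hp _) (Alg.prod _ _ _ fun i _ => hl _)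
  · intro P M h
    have h1 := card_inc_le hKk hc inc (by omega) P M h
    omega

end Pool.Agent.Helper7.TP
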