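import Pool.Agent.Helper7.TP.Defs

/-! # Project TP, module A: the topology of the projective plane -/

set_option autoImplicit false

namespace Pool.Agent.Helper7.TP

open Metric Set Topology

theorem mk_eq_mk {p q : S2} : mk p = mk q ↔ q = p ∨ q = -p := Quotient.eq (r := antip)

theorem mk_neg (p : S2) : mk (-p) = mk p := (mk_eq_mk.2 (Or.inr rfl)).symm

theorem mk_surjective : Function.Surjective mk := Quotient.mk_surjective

theorem continuous_mk : Continuous mk := continuous_quotient_mk'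

theorem mk_ne {p q : S2} (h : mk p ≠ mk q) : q ≠ p ∧ q ≠ -p :=
  ⟨fun h' => h (mk_eq_mk.2 (Or.inl h')), fun h' => h (mk_eq_mk.2 (Or.inr h'))⟩

theorem preimage_image_mk (U : Set S2) : mk ⁻¹' (mk '' U) = U ∪ (fun p : S2 => -p) ⁻¹' U := by
  ext p
  simp only [mem_preimage, mem_image, mem_union]
  constructor
  · rintro ⟨q, hq, h⟩
    rcases mk_eq_mk.1 h with h | h
    · left
      rw [h]
      exact hq
    · right
      rw [h, neg_neg]
      exact hq
  · rintro (h | h)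
    · exact ⟨p, h, rfl⟩
    · exact ⟨-p, h, mk_neg p⟩

theorem isOpenMap_mk : IsOpenMap mk := by
  intro U hU
  change IsOpen (Quotient.mk antip ⁻¹' (mk '' U))
  change IsOpen (mk ⁻¹' (mk '' U))
  rw [preimage_image_mk]
  exact hU.union (hU.preimage continuous_neg)

theorem nhds_mk (p : S2) : 𝓝 (mk p) = Filter.map mk (𝓝 p) :=
  (isOpenMap_mk.map_nhds_eq continuous_mk.continuousAt).symm

instance : CompactSpace P2 := by
  have : CompactSpace S2 := inferInstance
  exact inferInstanceAs (CompactSpace (Quotient antip))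

instance : T2Space P2 := by
  refine ⟨fun x y hxy => ?_⟩
  obtain ⟨p, rfl⟩ := mk_surjective x
  obtain ⟨q, rfl⟩ := mk_surjective y
  obtain ⟨h1, h2⟩ := mk_ne hxy
  obtain ⟨U, V, hU, hV, hpU, hqV, hUV⟩ := t2_separation h1.symm
  obtain ⟨U', V', hU', hV', hpU', hqV', hUV'⟩ := t2_separation (show p ≠ -q from fun h => h2 (by
    rw [h, neg_neg]))
  refine ⟨mk '' (U ∩ U'), mk '' (V ∩ (fun r : S2 => -r) ⁻¹' V'), isOpenMap_mk _ (hU.inter hU'),
    isOpenMap_mk _ (hV.inter (hV'.preimage continuous_neg)), ⟨p, ⟨hpU, hpU'⟩, rfl⟩,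
    ⟨q, ⟨hqV, hqV'⟩, rfl⟩, ?_⟩
  rw [Set.disjoint_left]
  rintro _ ⟨a, ⟨ha, ha'⟩, rfl⟩ ⟨b, ⟨hb, hb'⟩, hab⟩
  rcases mk_eq_mk.1 hab with h | h
  · rw [h] at ha
    exact Set.disjoint_left.1 hUV ha hb
  · rw [h] at ha'
    exact Set.disjoint_left.1 hUV' ha' hb'

end Pool.Agent.Helper7.TP
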